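import Pool.Agent.Lib_helper40.NLV.Ode

/-!
# The multipliers `Φ = h⁻²`, `s = h'/h`
-/

namespace Pool.Agent.Lib_helper40.NLV

open MeasureTheory Set Filter Topology intervalIntegral

noncomputable section

/-- `Φ' = -2 s Φ`, `s' = V - s²` -/
structure Fld (V Φ s : ℝ → ℝ) : Prop where
  dΦ : ∀ x, HasDerivAt Φ (-2 * s x * Φ x) x
  ds : ∀ x, HasDerivAt s (V x - s x ^ 2) x

lemma ode_upper {V h p : ℝ → ℝ} (hV : Continuous V) (hV0 : ∀ x, 0 ≤ V x) {b : ℝ}
    (hh : ∀ x, HasDerivAt h (p x) x) (hp : ∀ x, HasDerivAt p (V x * h x) x)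
    (hb : h b = 1) (pb : p b = 0) (hpn : ∀ x ≤ b, p x ≤ 0) {c : ℝ} (hc : c ≤ b) :
    h c ≤ Real.exp (∫ y in c..b, (y - c) * V y) := by
  set I : ℝ → ℝ := fun x => ∫ y in b..x, (y - c) * V y with hI
  have hcont : Continuous fun y => (y - c) * V y := by fun_prop
  have hI' : ∀ x, HasDerivAt I ((x - c) * V x) x := fun x =>
    intervalIntegral.integral_hasDerivAt_right (hcont.intervalIntegrable b x)
      (hcont.stronglyMeasurableAtFilter _ _) hcont.continuousAt
  set F : ℝ → ℝ := fun x => (h x - (x - c) * p x) * Real.exp (I x) with hF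
  have hF' : ∀ x, HasDerivAt F (Real.exp (I x) * ((x - c) * V x) * (-((x - c) * p x))) x := by
    intro x
    have h1 := ((hh x).sub (((hasDerivAt_id' x).sub_const c).mul (hp x))).mul (hI' x).exp
    refine h1.congr_deriv ?_
    simp only [Pi.sub_apply, Pi.mul_apply]
    ring
  have hm : MonotoneOn F (Icc c b) := by
    refine monotoneOn_of_deriv_nonneg (convex_Icc c b)
      (fun x _ => (hF' x).continuousAt.continuousWithinAt)
      (fun x _ => (hF' x).differentiableAt.differentiableWithinAt) (fun x hx => ?_)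
    rw [interior_Icc] at hx
    rw [(hF' x).deriv]
    have h1 : 0 ≤ x - c := by linarith [hx.1]
    have h2 : p x ≤ 0 := hpn x hx.2.le
    have h3 := hV0 x
    have h4 : 0 ≤ -((x - c) * p x) := by nlinarith
    positivity
  have h1 := hm (left_mem_Icc.2 hc) (right_mem_Icc.2 hc) hc
  have h2 : I b = 0 := intervalIntegral.integral_same
  have h3 : I c = -∫ y in c..b, (y - c) * V y := intervalIntegral.integral_symm _ _
  simp only [hF, sub_self, zero_mul, sub_zero, h2, pb, mul_zero, hb, Real.exp_zero, h3,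
    mul_one] at h1
  rw [Real.exp_neg] at h1
  have h4 := Real.exp_pos (∫ y in c..b, (y - c) * V y)
  rw [← div_eq_mul_inv, div_le_one h4] at h1
  exact h1

/-- One-sided multiplier. -/
theorem exists_field {V : ℝ → ℝ} (hV : Continuous V) (hV0 : ∀ x, 0 ≤ V x)
    (hVi : Integrable fun x => (1 + |x|) * V x) (b : ℝ) :
    ∃ Φ s : ℝ → ℝ, Fld V Φ s ∧ (∀ x, 0 ≤ Φ x ∧ Φ x ≤ 1) ∧
      (∀ x ≤ b, s x ≤ 0 ∧ -s x ≤ ∫ y, (1 + |y|) * V y) ∧
      (∀ x ≤ b, (∫ y in x..b, V y) * Real.exp (-(3 * (1 + |x|) * ∫ y, (1 + |y|) * V y)) ≤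
        -(s x * Φ x)) := by
  obtain ⟨h, p, hh, hp, hb, pb, h1, hpn⟩ := exists_ode hV b hV0
  have hcont : Continuous h := continuous_iff_continuousAt.2 fun x => (hh x).continuousAt
  have hpos : ∀ x, 0 < h x := fun x => one_pos.trans_le (h1 x)
  set A := ∫ y, (1 + |y|) * V y with hA
  have hA0 : 0 ≤ A := integral_nonneg fun y => by have := hV0 y; positivity
  -- comparison of interval integrals with `A`
  have hcmp : ∀ (g : ℝ → ℝ) (c : ℝ) (x : ℝ), x ≤ b → Continuous g → 0 ≤ c →
      (∀ y, x ≤ y → g y ≤ c * ((1 + |y|) * V y)) → ∫ y in x..b, g y ≤ c * A := by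
    intro g c x hx hg hc hgy
    calc ∫ y in x..b, g y ≤ ∫ y in x..b, c * ((1 + |y|) * V y) :=
          intervalIntegral.integral_mono_on hx (hg.intervalIntegrable _ _)
            ((by fun_prop : Continuous fun y => c * ((1 + |y|) * V y)).intervalIntegrable _ _)
            (fun y hy => hgy y hy.1)
      _ = c * ∫ y in x..b, ((1 + |y|) * V y) := intervalIntegral.integral_const_mul _ _
      _ ≤ c * A := by
          refine mul_le_mul_of_nonneg_left ?_ hc
          rw [intervalIntegral.integral_of_le hx]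
          exact setIntegral_le_integral hVi (ae_of_all _ fun y => by
            have := hV0 y; simp only [Pi.zero_apply]; positivity)
  have hpint : ∀ x, p x = -∫ y in x..b, V y * h y := by
    intro x
    have := intervalIntegral.integral_eq_sub_of_hasDerivAt (a := x) (b := b)
      (f := p) (f' := fun y => V y * h y) (fun y _ => hp y)
      ((hV.mul hcont).intervalIntegrable _ _)
    rw [this, pb]; ring
  have hanti : ∀ x y, x ≤ y → y ≤ b → h y ≤ h x := by
    have : AntitoneOn h (Iic b) := by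
      refine antitoneOn_of_deriv_nonpos (convex_Iic b) hcont.continuousOn
        (fun x _ => (hh x).differentiableAt.differentiableWithinAt) (fun x hx => ?_)
      rw [interior_Iic] at hx
      rw [(hh x).deriv]
      exact hpn x (le_of_lt hx)
    intro x y hxy hy
    exact this (show x ∈ Iic b from hxy.trans hy) hy hxy
  have hVle : ∀ y, V y ≤ 1 * ((1 + |y|) * V y) := fun y => by
    have := hV0 y; have := abs_nonneg y; nlinarith
  refine ⟨fun x => (h x ^ 2)⁻¹, fun x => p x / h x, ⟨fun x => ?_, fun x => ?_⟩,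
    fun x => ⟨by positivity, ?_⟩, fun x hx => ⟨?_, ?_⟩, fun x hx => ?_⟩
  · have := ((hh x).pow 2).inv (pow_ne_zero 2 (hpos x).ne')
    refine this.congr_deriv ?_
    have := (hpos x).ne'
    field_simp
    simp only [Pi.pow_apply]
    ring
  · have := (hp x).div (hh x) (hpos x).ne'
    refine this.congr_deriv ?_
    have := (hpos x).ne'
    field_simp
  · exact inv_le_one_of_one_le₀ (one_le_pow₀ (h1 x))
  · exact div_nonpos_of_nonpos_of_nonneg (hpn x hx) (hpos x).le
  · rw [← neg_div, div_le_iff₀ (hpos x), hpint x, neg_neg]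
    calc ∫ y in x..b, V y * h y ≤ ∫ y in x..b, h x * V y := by
          refine intervalIntegral.integral_mono_on hx ((hV.mul hcont).intervalIntegrable _ _)
            ((continuous_const.mul hV).intervalIntegrable _ _) (fun y hy => ?_)
          have := hanti x y hy.1 hy.2
          have := hV0 y
          nlinarith
      _ = h x * ∫ y in x..b, V y := intervalIntegral.integral_const_mul _ _
      _ ≤ h x * (1 * A) := mul_le_mul_of_nonneg_left
          (hcmp V 1 x hx hV zero_le_one (fun y _ => hVle y)) (hpos x).le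
      _ = A * h x := by ring
  · have h2 : ∫ y in x..b, V y ≤ -p x := by
      rw [hpint x, neg_neg]
      refine intervalIntegral.integral_mono_on hx (hV.intervalIntegrable _ _)
        ((hV.mul hcont).intervalIntegrable _ _) (fun y _ => ?_)
      have := h1 y
      have := hV0 y
      nlinarith
    have h3 : h x ≤ Real.exp ((1 + |x|) * A) := by
      refine (ode_upper hV hV0 hh hp hb pb hpn hx).trans (Real.exp_le_exp.2 ?_)
      refine hcmp _ (1 + |x|) x hx (by fun_prop) (by positivity) (fun y hy => ?_)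
      have e1 : y - x ≤ (1 + |x|) * (1 + |y|) := by
        have := le_abs_self y
        have := neg_abs_le x
        nlinarith [abs_nonneg x, abs_nonneg y, mul_nonneg (abs_nonneg x) (abs_nonneg y)]
      calc (y - x) * V y ≤ ((1 + |x|) * (1 + |y|)) * V y :=
            mul_le_mul_of_nonneg_right e1 (hV0 y)
        _ = _ := by ring
    have h4 : Real.exp (-(3 * (1 + |x|) * A)) ≤ (h x ^ 3)⁻¹ := by
      rw [Real.exp_neg]
      refine inv_anti₀ (pow_pos (hpos x) 3) ?_
      calc h x ^ 3 ≤ Real.exp ((1 + |x|) * A) ^ 3 := by gcongr; exact (hpos x).le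
        _ = Real.exp (3 * (1 + |x|) * A) := by
            rw [← Real.exp_nat_mul]; congr 1; push_cast; ring
    have h5 : 0 ≤ ∫ y in x..b, V y := intervalIntegral.integral_nonneg hx fun y _ => hV0 y
    calc (∫ y in x..b, V y) * Real.exp (-(3 * (1 + |x|) * A))
        ≤ (-p x) * (h x ^ 3)⁻¹ := mul_le_mul h2 h4 (Real.exp_pos _).le (h5.trans h2)
      _ = -(p x / h x * (h x ^ 2)⁻¹) := by
          have := (hpos x).ne'
          field_simp

/-- Two multipliers whose total weight is bounded below. -/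
theorem exists_fields {V : ℝ → ℝ} (hV : Continuous V) (hV0 : ∀ x, 0 ≤ V x)
    (hVi : Integrable fun x => (1 + |x|) * V x) (b : ℝ) :
    ∃ Φ s Φ' s' : ℝ → ℝ, Fld V Φ s ∧ Fld V Φ' s' ∧ (∀ x, |Φ x| ≤ 1) ∧ (∀ x, |Φ' x| ≤ 1) ∧
      (∀ x, |x| ≤ b → |s x| ≤ ∫ y, (1 + |y|) * V y) ∧
      (∀ x, |x| ≤ b → |s' x| ≤ ∫ y, (1 + |y|) * V y) ∧
      (∀ x, |x| ≤ b → 0 ≤ -(s x * Φ x)) ∧ (∀ x, |x| ≤ b → 0 ≤ -(s' x * Φ' x)) ∧
      (∀ x, |x| ≤ b → (∫ y in (-b)..b, V y) *
        Real.exp (-(3 * (1 + |x|) * ∫ y, (1 + |y|) * V y)) ≤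
        -(s x * Φ x) + -(s' x * Φ' x)) := by
  have hV' : Continuous fun x => V (-x) := hV.comp continuous_neg
  have hVi' : Integrable fun x => (1 + |x|) * V (-x) := by
    have := hVi.comp_neg
    simpa only [abs_neg] using this
  have hAeq : ∫ y, (1 + |y|) * V (-y) = ∫ y, (1 + |y|) * V y := by
    have := integral_neg_eq_self (fun y => (1 + |y|) * V y) volume
    simpa only [abs_neg] using this
  obtain ⟨Φ, s, h1, h2, h3, h4⟩ := exists_field hV hV0 hVi b
  obtain ⟨Ψ, r, k1, k2, k3, k4⟩ := exists_field hV' (fun x => hV0 _) hVi' b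
  rw [hAeq] at k3 k4
  set A := ∫ y, (1 + |y|) * V y with hA
  have hxb : ∀ x, |x| ≤ b → x ≤ b ∧ -x ≤ b := fun x hx =>
    ⟨(le_abs_self x).trans hx, (neg_le_abs x).trans hx⟩
  have hs0 : ∀ x, |x| ≤ b → 0 ≤ -(s x * Φ x) := fun x hx => by
    have := mul_nonneg (neg_nonneg.2 (h3 x (hxb x hx).1).1) (h2 x).1
    linarith
  have hr0 : ∀ x, |x| ≤ b → 0 ≤ -(-r (-x) * -Ψ (-x)) := fun x hx => by
    have := mul_nonneg (neg_nonneg.2 (k3 (-x) (hxb x hx).2).1) (k2 (-x)).1
    linarith
  refine ⟨Φ, s, fun x => -Ψ (-x), fun x => -r (-x), h1, ⟨fun x => ?_, fun x => ?_⟩,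
    fun x => ?_, fun x => ?_, fun x hx => ?_, fun x hx => ?_, hs0, hr0, fun x hx => ?_⟩
  · have := ((k1.dΦ (-x)).comp x (hasDerivAt_neg x)).neg
    refine this.congr_deriv ?_
    ring
  · have := ((k1.ds (-x)).comp x (hasDerivAt_neg x)).neg
    refine this.congr_deriv ?_
    simp
  · rw [abs_of_nonneg (h2 x).1]; exact (h2 x).2
  · rw [abs_neg, abs_of_nonneg (k2 _).1]; exact (k2 _).2
  · rw [abs_of_nonpos (h3 x (hxb x hx).1).1]; exact (h3 x (hxb x hx).1).2
  · rw [abs_neg, abs_of_nonpos (k3 _ (hxb x hx).2).1]; exact (k3 _ (hxb x hx).2).2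
  · have e1 := h4 x (hxb x hx).1
    have e2 := k4 (-x) (hxb x hx).2
    rw [abs_neg] at e2
    have e3 : ∫ y in (-x)..b, V (-y) = ∫ y in (-b)..x, V y := by
      rw [intervalIntegral.integral_comp_neg (fun y => V y)]
      simp
    rw [e3] at e2
    have e4 : (∫ y in (-b)..x, V y) + ∫ y in x..b, V y = ∫ y in (-b)..b, V y :=
      intervalIntegral.integral_add_adjacent_intervals (hV.intervalIntegrable _ _)
        (hV.intervalIntegrable _ _)
    rw [← e4]
    have e5 : -(-r (-x) * -Ψ (-x)) = -(r (-x) * Ψ (-x)) := by ring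
    rw [e5]
    linarith

end

end Pool.Agent.Lib_helper40.NLV
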