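import Pool.Agent.Lib_helper40.NLV.Final

/-!
# From distributional solutions in `C(ℝ; H¹)` to the tested equation at every time
-/

namespace Pool.Agent.Lib_helper40.NLV

open MeasureTheory Set Filter Topology intervalIntegral

noncomputable section

/-- du Bois-Reymond -/
lemma dbr {K : ℝ → ℂ} (hK : Continuous K)
    (h : ∀ α : ℝ → ℝ, Ker α → ∫ t, deriv α t • K t = 0) (x : ℝ) : K x = K 0 := by
  have hl : LocallyIntegrable K volume := hK.locallyIntegrable
  refine eq_of_forall_dist_le fun η hη => ?_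
  have h1 := Metric.continuousAt_iff.1 (hK.continuousAt (x := x)) (η / 2) (by positivity)
  have h2 := Metric.continuousAt_iff.1 (hK.continuousAt (x := 0)) (η / 2) (by positivity)
  obtain ⟨δ1, hδ1, h1⟩ := h1
  obtain ⟨δ2, hδ2, h2⟩ := h2
  obtain ⟨k, hk⟩ := exists_avg (lt_min hδ1 hδ2)
  have hd : ∀ y, HasDerivAt (mo k K) 0 y := fun y => by
    have h3 := mo_deriv hk.ker hl y
    have h4 : mo (deriv k) K y = 0 := by
      obtain ⟨hη, hη'⟩ := shift_ker hk.ker y
      have h5 := h _ hη
      simp only [hη', neg_smul] at h5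
      rw [MeasureTheory.integral_neg, ← mo_eq, neg_eq_zero] at h5
      exact h5
    rwa [h4] at h3
  have hc : mo k K x = mo k K 0 :=
    is_const_of_deriv_eq_zero (fun y => (hd y).differentiableAt) (fun y => (hd y).deriv) x 0
  have c1 : ‖mo k K x - K x‖ ≤ η / 2 := mo_close hk hK.aestronglyMeasurable fun y hy => by
    have := h1 (show dist y x < δ1 by rw [Real.dist_eq]; exact hy.trans_le (min_le_left _ _))
    rw [dist_eq_norm] at this
    exact this.le
  have c2 : ‖mo k K 0 - K 0‖ ≤ η / 2 := mo_close hk hK.aestronglyMeasurable fun y hy => by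
    have := h2 (show dist y 0 < δ2 by rw [Real.dist_eq]; exact hy.trans_le (min_le_right _ _))
    rw [dist_eq_norm] at this
    exact this.le
  rw [dist_eq_norm]
  calc ‖K x - K 0‖ = ‖(mo k K 0 - K 0) - (mo k K x - K x)‖ := by rw [hc]; congr 1; ring
    _ ≤ ‖mo k K 0 - K 0‖ + ‖mo k K x - K x‖ := norm_sub_le _ _
    _ ≤ η := by linarith

/-- a scalar ODE in the sense of distributions -/
lemma ode_distr {F H : ℝ → ℂ} (hF : Continuous F) (hH : Continuous H)
    (h : ∀ α : ℝ → ℝ, Ker α → ∫ t, (Complex.I * (deriv α t • F t) + α t • H t) = 0) (t : ℝ) :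
    HasDerivAt F (-Complex.I * H t) t := by
  set P : ℝ → ℂ := fun t => ∫ s in (0 : ℝ)..t, -Complex.I * H s with hP
  have hcI : Continuous fun s => -Complex.I * H s := by fun_prop
  have hPd : ∀ t, HasDerivAt P (-Complex.I * H t) t := fun t =>
    intervalIntegral.integral_hasDerivAt_right (hcI.intervalIntegrable _ _)
      (hcI.stronglyMeasurableAtFilter _ _) hcI.continuousAt
  have hPc : Continuous P := continuous_iff_continuousAt.2 fun x => (hPd x).continuousAt
  have hK : ∀ α : ℝ → ℝ, Ker α → ∫ t, deriv α t • (F t - P t) = 0 := by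
    intro α hα
    have c1 : Continuous (deriv α) := hα.deriv.cont
    have c2 := hα.cont
    have i1 : Integrable fun t => deriv α t • F t :=
      (c1.smul hF).integrable_of_hasCompactSupport hα.deriv.2.smul_right
    have i2 : Integrable fun t => deriv α t • P t :=
      (c1.smul hPc).integrable_of_hasCompactSupport hα.deriv.2.smul_right
    have i3 : Integrable fun t => α t • H t :=
      (c2.smul hH).integrable_of_hasCompactSupport hα.2.smul_right
    have i4 : Integrable fun t => α t • (-Complex.I * H t) :=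
      (c2.smul hcI).integrable_of_hasCompactSupport hα.2.smul_right
    have i5 : Integrable fun t => α t • P t :=
      (c2.smul hPc).integrable_of_hasCompactSupport hα.2.smul_right
    have e1 : ∫ t, (deriv α t • P t + α t • (-Complex.I * H t)) = 0 := by
      refine integral_eq_zero_of_hasDerivAt_of_integrable (f := fun t => α t • P t) (fun t => ?_)
        (i2.add i4) i5
      have := (hα.hasDerivAt t).smul (hPd t)
      refine this.congr_deriv ?_
      rw [add_comm]
    have e2 := h α hα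
    rw [MeasureTheory.integral_add i2 i4] at e1
    have e3 : ∫ t, α t • (-Complex.I * H t) = -Complex.I * ∫ t, α t • H t := by
      rw [← MeasureTheory.integral_const_mul]
      refine integral_congr_ae (ae_of_all _ fun t => ?_)
      simp only [Complex.real_smul]
      ring
    rw [MeasureTheory.integral_add (i1.const_mul _) i3, MeasureTheory.integral_const_mul] at e2
    simp only [smul_sub]
    rw [MeasureTheory.integral_sub i1 i2]
    rw [e3] at e1
    have h1 := Complex.I_mul_I
    linear_combination (-Complex.I) * e2 - e1 + (∫ t, deriv α t • F t) * h1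
  have hc := dbr (hF.sub hPc) hK
  have hFe : F = fun t => P t + (F 0 - P 0) := by
    funext t
    have := hc t
    simp only [Pi.sub_apply] at this
    linear_combination this
  rw [hFe]
  refine ((hPd t).add_const _).congr_deriv ?_
  ring

/-- continuity of pairings -/
lemma cont_pair {w : ℝ → ℝ} (hw : Ker w) {g e : ℝ → ℝ → ℂ} {K : ℝ}
    (hg : ∀ t, Integrable fun x => w x • g t x) {t₀ : ℝ}
    (hi : ∀ t, Integrable fun x => ‖e t x‖ ^ 2)
    (hge : ∀ t x, ‖g t x - g t₀ x‖ ≤ K * ‖e t x‖)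
    (he : Tendsto (fun t => ∫ x, ‖e t x‖ ^ 2) (𝓝 t₀) (𝓝 0)) :
    Tendsto (fun t => ∫ x, w x • g t x) (𝓝 t₀) (𝓝 (∫ x, w x • g t₀ x)) := by
  rw [Metric.tendsto_nhds]
  intro η hη
  have hw2 : Integrable fun x => w x ^ 2 := by
    refine (hw.cont.pow 2).integrable_of_hasCompactSupport ?_
    have := hw.2.mul_left (f := w)
    simpa only [sq] using this
  set W := ∫ x, w x ^ 2 with hW
  have hW0 : 0 ≤ W := integral_nonneg fun _ => by positivity
  set r := η / (W + 1) with hr
  have hr0 : 0 < r := by positivity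
  have h1 : ∀ᶠ t in 𝓝 t₀, ∫ x, ‖e t x‖ ^ 2 < η * r / (K ^ 2 + 1) :=
    he.eventually (gt_mem_nhds (by positivity))
  filter_upwards [h1] with t ht
  rw [dist_eq_norm, ← MeasureTheory.integral_sub (hg t) (hg t₀)]
  have h2 : ‖∫ x, (w x • g t x - w x • g t₀ x)‖ ≤
      ∫ x, (1 / 2 * r * w x ^ 2 + 1 / 2 * (K ^ 2 / r) * ‖e t x‖ ^ 2) := by
    refine norm_integral_le_of_norm_le ((hw2.const_mul _).add ((hi t).const_mul _))
      (ae_of_all _ fun x => ?_)
    rw [← smul_sub, norm_smul, Real.norm_eq_abs]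
    calc |w x| * ‖g t x - g t₀ x‖ ≤ |w x| * (K * ‖e t x‖) := by gcongr; exact hge t x
      _ ≤ _ := by
        have h3 : 0 ≤ (r * |w x| - K * ‖e t x‖) ^ 2 / r := by positivity
        have h4 : (r * |w x| - K * ‖e t x‖) ^ 2 / r =
            r * |w x| ^ 2 - 2 * (|w x| * (K * ‖e t x‖)) + K ^ 2 / r * ‖e t x‖ ^ 2 := by
          field_simp
          ring
        rw [sq_abs] at h4
        linarith
  refine h2.trans_lt ?_
  rw [MeasureTheory.integral_add (hw2.const_mul _) ((hi t).const_mul _),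
    MeasureTheory.integral_const_mul, MeasureTheory.integral_const_mul, ← hW]
  have h5 : r * W < η := by
    rw [hr, div_mul_eq_mul_div, div_lt_iff₀ (by positivity)]
    nlinarith
  have h6 : K ^ 2 / r * ∫ x, ‖e t x‖ ^ 2 ≤ η := by
    have h7 : 0 ≤ ∫ x, ‖e t x‖ ^ 2 := integral_nonneg fun _ => by positivity
    rw [lt_div_iff₀ (by positivity)] at ht
    rw [div_mul_eq_mul_div, div_le_iff₀ hr0]
    nlinarith
  linarith

/-- Assembling the solution structure. -/
theorem sol_of_distr {V : ℝ → ℝ} {ψ ψ' : ℝ → ℝ → ℂ} {C : ℝ} (hV : Continuous V) {Vm : ℝ}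
    (hVm : ∀ x, |V x| ≤ Vm) (h1 : ∀ t, H1 (ψ t) (ψ' t))
    (hC : ∀ t, ∫ x, (‖ψ t x‖ ^ 2 + ‖ψ' t x‖ ^ 2) ≤ C)
    (hcont : ∀ t₀, Tendsto (fun t => ∫ x, (‖ψ t x - ψ t₀ x‖ ^ 2 + ‖ψ' t x - ψ' t₀ x‖ ^ 2))
      (𝓝 t₀) (𝓝 0))
    (heq : ∀ θ : ℝ → ℝ → ℝ, ContDiff ℝ (⊤ : ℕ∞) (fun p : ℝ × ℝ => θ p.1 p.2) →
      HasCompactSupport (fun p : ℝ × ℝ => θ p.1 p.2) →
      ∫ t, ∫ x, (Complex.I * ψ t x * ((deriv (fun s => θ s x) t : ℝ) : ℂ)
        + ψ' t x * ((deriv (θ t) x : ℝ) : ℂ)
        + ((V x + ‖ψ t x‖ ^ 2 : ℝ) : ℂ) * ψ t x * ((θ t x : ℝ) : ℂ)) = 0) :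
    Sol V ψ ψ' C := by
  have i1 : ∀ t, Integrable fun x => ‖ψ t x‖ ^ 2 := fun t =>
    (h1 t).mem.integrable_norm_pow (by norm_num)
  have i2 : ∀ t, Integrable fun x => ‖ψ' t x‖ ^ 2 := fun t =>
    (h1 t).mem'.integrable_norm_pow (by norm_num)
  have hbd : ∀ t, ∫ x, ‖ψ t x‖ ^ 2 ≤ C := fun t => by
    refine le_trans ?_ (hC t)
    exact integral_mono (i1 t) ((i1 t).add (i2 t)) fun x => by
      have := sq_nonneg ‖ψ' t x‖; simp only; linarith
  have hbd' : ∀ t, ∫ x, ‖ψ' t x‖ ^ 2 ≤ C := fun t => by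
    refine le_trans ?_ (hC t)
    exact integral_mono (i2 t) ((i1 t).add (i2 t)) fun x => by
      have := sq_nonneg ‖ψ t x‖; simp only; linarith
  have hC0 : 0 ≤ C := le_trans (integral_nonneg fun _ => by positivity) (hbd 0)
  have hsup : ∀ t x, ‖ψ t x‖ ≤ 2 * (1 + C) := fun t x => (h1 t).sup (hbd t) (hbd' t) x
  have hVm0 : 0 ≤ Vm := (abs_nonneg _).trans (hVm 0)
  -- separate continuity in `L²`
  have j1 : ∀ t t₀, Integrable fun x => ‖ψ t x - ψ t₀ x‖ ^ 2 := fun t t₀ =>
    ((h1 t).mem.sub (h1 t₀).mem).integrable_norm_pow (by norm_num)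
  have j2 : ∀ t t₀, Integrable fun x => ‖ψ' t x - ψ' t₀ x‖ ^ 2 := fun t t₀ =>
    ((h1 t).mem'.sub (h1 t₀).mem').integrable_norm_pow (by norm_num)
  have c1 : ∀ t₀, Tendsto (fun t => ∫ x, ‖ψ t x - ψ t₀ x‖ ^ 2) (𝓝 t₀) (𝓝 0) := fun t₀ => by
    refine squeeze_zero (fun t => integral_nonneg fun _ => by positivity) (fun t => ?_) (hcont t₀)
    exact integral_mono (j1 t t₀) ((j1 t t₀).add (j2 t t₀)) fun x => by
      have := sq_nonneg ‖ψ' t x - ψ' t₀ x‖; simp only; linarith
  have c2 : ∀ t₀, Tendsto (fun t => ∫ x, ‖ψ' t x - ψ' t₀ x‖ ^ 2) (𝓝 t₀) (𝓝 0) := fun t₀ => by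
    refine squeeze_zero (fun t => integral_nonneg fun _ => by positivity) (fun t => ?_) (hcont t₀)
    exact integral_mono (j2 t t₀) ((j1 t t₀).add (j2 t t₀)) fun x => by
      have := sq_nonneg ‖ψ t x - ψ t₀ x‖; simp only; linarith
  have hnlc : ∀ t, Continuous (nl V (ψ t)) := fun t => by
    have := (h1 t).cont
    unfold nl
    fun_prop
  refine ⟨h1, hbd, hbd', fun η hη t => ?_⟩
  have k1 : ∀ t, Integrable fun x => η x • ψ t x := fun t =>
    (h1 t).cont.locallyIntegrable.integrable_smul_left_of_hasCompactSupport hη.cont hη.2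
  have k2 : ∀ t, Integrable fun x => deriv η x • ψ' t x := fun t =>
    (h1 t).loc.integrable_smul_left_of_hasCompactSupport hη.deriv.cont hη.deriv.2
  have k3 : ∀ t, Integrable fun x => η x • nl V (ψ t) x := fun t =>
    (hnlc t).locallyIntegrable.integrable_smul_left_of_hasCompactSupport hη.cont hη.2
  have cF : Continuous fun t => ∫ x, η x • ψ t x := by
    rw [continuous_iff_continuousAt]
    intro t₀
    exact cont_pair hη (e := fun t x => ψ t x - ψ t₀ x) (K := 1) k1 (fun t => j1 t t₀)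
      (fun t x => by rw [one_mul]) (c1 t₀)
  have cH1 : Continuous fun t => ∫ x, deriv η x • ψ' t x := by
    rw [continuous_iff_continuousAt]
    intro t₀
    exact cont_pair hη.deriv (e := fun t x => ψ' t x - ψ' t₀ x) (K := 1) k2
      (fun t => j2 t t₀) (fun t x => by rw [one_mul]) (c2 t₀)
  have cH2 : Continuous fun t => ∫ x, η x • nl V (ψ t) x := by
    rw [continuous_iff_continuousAt]
    intro t₀
    refine cont_pair hη (e := fun t x => ψ t x - ψ t₀ x) (K := Vm + 3 * (2 * (1 + C)) ^ 2)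
      k3 (fun t => j1 t t₀) (fun t x => ?_) (c1 t₀)
    unfold nl
    refine (nl_lip (hsup t x) (hsup t₀ x)).trans ?_
    rw [sub_self, abs_zero, zero_mul, zero_add]
    have := hVm x
    gcongr
  have key := ode_distr (F := fun t => ∫ x, η x • ψ t x)
    (H := fun t => (∫ x, deriv η x • ψ' t x) + ∫ x, η x • nl V (ψ t) x) cF (cH1.add cH2)
    (fun α hα => ?_) t
  · refine key.congr_deriv ?_
    rw [MeasureTheory.integral_add (k2 t) (k3 t)]
  · have h3 := heq (fun t x => α t * η x) ?_ ?_
    · rw [← h3]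
      refine integral_congr_ae (ae_of_all _ fun t => ?_)
      have hpt : ∀ x, Complex.I * ψ t x * ((deriv (fun s => α s * η x) t : ℝ) : ℂ)
          + ψ' t x * ((deriv (fun x => α t * η x) x : ℝ) : ℂ)
          + ((V x + ‖ψ t x‖ ^ 2 : ℝ) : ℂ) * ψ t x * ((α t * η x : ℝ) : ℂ) =
          (Complex.I * ((deriv α t : ℝ) : ℂ)) * (η x • ψ t x) + (α t : ℂ) * (deriv η x • ψ' t x)
            + (α t : ℂ) * (η x • nl V (ψ t) x) := by
        intro x
        have d1 : deriv (fun s => α s * η x) t = deriv α t * η x :=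
          ((hα.hasDerivAt t).mul_const (η x)).deriv
        have d2 : deriv (fun x => α t * η x) x = α t * deriv η x :=
          ((hη.hasDerivAt x).const_mul (α t)).deriv
        rw [d1, d2]
        unfold nl
        simp only [Complex.real_smul]
        push_cast
        ring
      simp only [hpt]
      have q1 : Integrable fun x => (Complex.I * ((deriv α t : ℝ) : ℂ)) * (η x • ψ t x)
          + (α t : ℂ) * (deriv η x • ψ' t x) := ((k1 t).const_mul _).add ((k2 t).const_mul _)
      rw [MeasureTheory.integral_add q1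
        ((k3 t).const_mul _), MeasureTheory.integral_add ((k1 t).const_mul _)
        ((k2 t).const_mul _), MeasureTheory.integral_const_mul, MeasureTheory.integral_const_mul,
        MeasureTheory.integral_const_mul]
      simp only [Complex.real_smul]
      ring
    · exact (hα.1.comp contDiff_fst).mul (hη.1.comp contDiff_snd)
    · refine HasCompactSupport.intro (K := tsupport α ×ˢ tsupport η)
        (hα.2.isCompact.prod hη.2.isCompact) fun p hp => ?_
      rw [mem_prod, not_and_or] at hp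
      rcases hp with hp | hp
      · simp only [image_eq_zero_of_notMem_tsupport hp, zero_mul]
      · simp only [image_eq_zero_of_notMem_tsupport hp, mul_zero]

end

end Pool.Agent.Lib_helper40.NLV
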