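import Pool.Agent.Lib_helper40.NLV.Field

/-!
# The virial identity at a fixed time
-/

namespace Pool.Agent.Lib_helper40.NLV

open MeasureTheory Set Filter Topology intervalIntegral

noncomputable section

/-- A smooth function `u = a + i b` and its time derivative `v = i u'' - i G`,
`G = (V + |u|²) u + e`, in real and imaginary parts. -/
structure Snap (V a a1 a2 b b1 b2 v1 v2 w1 w2 e1 e2 : ℝ → ℝ) : Prop where
  da : ∀ x, HasDerivAt a (a1 x) x
  da1 : ∀ x, HasDerivAt a1 (a2 x) x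
  db : ∀ x, HasDerivAt b (b1 x) x
  db1 : ∀ x, HasDerivAt b1 (b2 x) x
  dv1 : ∀ x, HasDerivAt v1 (w1 x) x
  dv2 : ∀ x, HasDerivAt v2 (w2 x) x
  hv1 : ∀ x, v1 x = -b2 x + ((V x + (a x ^ 2 + b x ^ 2)) * b x + e2 x)
  hv2 : ∀ x, v2 x = a2 x - ((V x + (a x ^ 2 + b x ^ 2)) * a x + e1 x)
  ca2 : Continuous a2
  cb2 : Continuous b2
  cw1 : Continuous w1
  cw2 : Continuous w2
  ce1 : Continuous e1
  ce2 : Continuous e2

/-- A cutoff function on `[-L, L]`. -/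
structure Cut (L κ : ℝ) (χ χ1 χ2 : ℝ → ℝ) : Prop where
  dχ : ∀ x, HasDerivAt χ (χ1 x) x
  dχ1 : ∀ x, HasDerivAt χ1 (χ2 x) x
  cχ2 : Continuous χ2
  nn : ∀ x, 0 ≤ χ x
  le1 : ∀ x, χ x ≤ 1
  b1 : ∀ x, |χ1 x| ≤ κ
  b2 : ∀ x, |χ2 x| ≤ κ
  z0 : ∀ x, L ≤ |x| → χ x = 0
  z1 : ∀ x, L ≤ |x| → χ1 x = 0

lemma cont_of_deriv {f f' : ℝ → ℝ} (h : ∀ x, HasDerivAt f (f' x) x) : Continuous f :=
  continuous_iff_continuousAt.2 fun x => (h x).continuousAt

lemma int_lin1 {f g : ℝ → ℝ} (hf : Continuous f) (hg : Continuous g) (κ ω L : ℝ) :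
    ∫ x in (-L)..L, (κ * (f x + g x) + ω * (2 * (1 + f x))) =
      κ * ((∫ x in (-L)..L, f x) + ∫ x in (-L)..L, g x) +
        ω * (2 * (2 * L + ∫ x in (-L)..L, f x)) := by
  have cI : ∀ {f : ℝ → ℝ}, Continuous f → IntervalIntegrable f volume (-L) L := fun h =>
    h.intervalIntegrable _ _
  have e : ∀ x, κ * (f x + g x) + ω * (2 * (1 + f x)) =
      (κ + 2 * ω) * f x + (κ * g x + 2 * ω) := fun x => by ring
  simp only [e]
  rw [intervalIntegral.integral_add (cI (by fun_prop)) (cI (by fun_prop)),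
    intervalIntegral.integral_add (cI (by fun_prop)) (cI (by fun_prop)),
    intervalIntegral.integral_const_mul, intervalIntegral.integral_const_mul,
    intervalIntegral.integral_const, smul_eq_mul]
  ring

lemma int_lin2 {F f g h : ℝ → ℝ} (hF : Continuous F) (hf : Continuous f) (hg : Continuous g)
    (hh : Continuous h) (κ ω L α β γ δ : ℝ) :
    ∫ x in (-L)..L, (F x - κ * (α * f x + β * g x + γ * h x)
        - ω * (2 * (1 + g x) + δ * (1 + f x))) =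
      (∫ x in (-L)..L, F x) - κ * (α * (∫ x in (-L)..L, f x) + β * (∫ x in (-L)..L, g x)
        + γ * ∫ x in (-L)..L, h x) - ω * (2 * (2 * L + ∫ x in (-L)..L, g x)
        + δ * (2 * L + ∫ x in (-L)..L, f x)) := by
  have cI : ∀ {f : ℝ → ℝ}, Continuous f → IntervalIntegrable f volume (-L) L := fun h =>
    h.intervalIntegrable _ _
  have e : ∀ x, F x - κ * (α * f x + β * g x + γ * h x) - ω * (2 * (1 + g x) + δ * (1 + f x)) =
      F x + ((-(κ * α) - ω * δ) * f x + ((-(κ * β) - 2 * ω) * g x + (-(κ * γ) * h x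
        + (-2 * ω - ω * δ)))) := fun x => by ring
  simp only [e]
  rw [intervalIntegral.integral_add (cI (by fun_prop)) (cI (by fun_prop)),
    intervalIntegral.integral_add (cI (by fun_prop)) (cI (by fun_prop)),
    intervalIntegral.integral_add (cI (by fun_prop)) (cI (by fun_prop)),
    intervalIntegral.integral_add (cI (by fun_prop)) (cI (by fun_prop)),
    intervalIntegral.integral_const_mul, intervalIntegral.integral_const_mul,
    intervalIntegral.integral_const_mul,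
    intervalIntegral.integral_const, smul_eq_mul]
  ring

section

variable {V Φ s χ χ1 χ2 a a1 a2 b b1 b2 v1 v2 w1 w2 e1 e2 : ℝ → ℝ} {L κ : ℝ}

/-- the virial identity, pointwise -/
lemma ident (hF : Fld V Φ s) (hχ : Cut L κ χ χ1 χ2)
    (hS : Snap V a a1 a2 b b1 b2 v1 v2 w1 w2 e1 e2) (x : ℝ) :
    HasDerivAt (fun x => Φ x * χ x * (a x * v2 x - b x * v1 x)
        - Φ x * χ x * (a1 x ^ 2 + b1 x ^ 2)
        - (-2 * s x * Φ x * χ x + Φ x * χ1 x) * (a x * a1 x + b x * b1 x)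
        + 1 / 2 * (Φ x * χ x * (a x ^ 2 + b x ^ 2) ^ 2)
        - s x ^ 2 * (Φ x * χ x * (a x ^ 2 + b x ^ 2)))
      (Φ x * χ x * (v1 x * b1 x + a x * w2 x - v2 x * a1 x - b x * w1 x)
        - (χ x * (-4 * s x * Φ x) * ((a1 x - s x * a x) ^ 2 + (b1 x - s x * b x) ^ 2)
          + -(s x * Φ x) * χ x * (a x ^ 2 + b x ^ 2) ^ 2
          + Φ x * (χ1 x * (s x ^ 2 * (a x ^ 2 + b x ^ 2) + 2 * (a1 x ^ 2 + b1 x ^ 2)
              - 2 * s x * (2 * (a x * a1 x + b x * b1 x)) + V x * (a x ^ 2 + b x ^ 2)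
              + 1 / 2 * (a x ^ 2 + b x ^ 2) ^ 2)
            + 1 / 2 * χ2 x * (2 * (a x * a1 x + b x * b1 x)))
          + 2 * Φ x * χ x * (e1 x * a1 x + e2 x * b1 x)
          + (-2 * s x * Φ x * χ x + Φ x * χ1 x) * (e1 x * a x + e2 x * b x))) x := by
  have hΦ := hF.dΦ x
  have hs := hF.ds x
  have hχ0 := hχ.dχ x
  have hχ1 := hχ.dχ1 x
  have ha := hS.da x
  have ha1 := hS.da1 x
  have hb := hS.db x
  have hb1 := hS.db1 x
  have hv1 := hS.dv1 x
  have hv2 := hS.dv2 x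
  have H := ((((((hΦ.mul hχ0).mul ((ha.mul hv2).sub (hb.mul hv1))).sub
    ((hΦ.mul hχ0).mul ((ha1.pow 2).add (hb1.pow 2)))).sub
    (((((hs.const_mul (-2)).mul hΦ).mul hχ0).add (hΦ.mul hχ1)).mul
      ((ha.mul ha1).add (hb.mul hb1)))).add
    (((hΦ.mul hχ0).mul (((ha.pow 2).add (hb.pow 2)).pow 2)).const_mul (1 / 2))).sub
    ((hs.pow 2).mul ((hΦ.mul hχ0).mul ((ha.pow 2).add (hb.pow 2)))))
  refine H.congr_deriv ?_
  simp only [Pi.mul_apply, Pi.add_apply, Pi.sub_apply, Pi.pow_apply, hS.hv1 x, hS.hv2 x]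
  push_cast
  ring

/-- the mass identity, pointwise -/
lemma identM (hχ : Cut L κ χ χ1 χ2)
    (hS : Snap V a a1 a2 b b1 b2 v1 v2 w1 w2 e1 e2) (x : ℝ) :
    HasDerivAt (fun x => 2 * (χ x * (b x * a1 x - a x * b1 x)))
      (χ x * (2 * (a x * v1 x + b x * v2 x))
        - (-2 * χ1 x * (b x * a1 x - a x * b1 x) + 2 * χ x * (a x * e2 x - b x * e1 x))) x := by
  have hχ0 := hχ.dχ x
  have ha := hS.da x
  have ha1 := hS.da1 x
  have hb := hS.db x
  have hb1 := hS.db1 x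
  have H := (hχ0.mul ((hb.mul ha1).sub (ha.mul hb1))).const_mul 2
  refine H.congr_deriv ?_
  simp only [Pi.mul_apply, Pi.sub_apply, hS.hv1 x, hS.hv2 x]
  ring

/-- the virial inequality at a fixed time -/
theorem virial_ineq (hV : Continuous V) (hV0 : ∀ x, 0 ≤ V x) (hF : Fld V Φ s)
    (hχ : Cut L κ χ χ1 χ2) (hS : Snap V a a1 a2 b b1 b2 v1 v2 w1 w2 e1 e2)
    (hL : 0 ≤ L) (hκ : κ ≤ 1) {S B C A ω : ℝ} (hS0 : 0 ≤ S) (hω : 0 ≤ ω)
    (hΦ1 : ∀ x, |Φ x| ≤ 1) (hsS : ∀ x, |x| ≤ L → |s x| ≤ S)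
    (hpos : ∀ x, |x| ≤ L → 0 ≤ -(s x * Φ x))
    (hB : ∀ x, a x ^ 2 + b x ^ 2 ≤ B)
    (he1 : ∀ x, |x| ≤ L → |e1 x| ≤ ω) (he2 : ∀ x, |x| ≤ L → |e2 x| ≤ ω)
    (hC : ∫ x in (-L)..L, (a x ^ 2 + b x ^ 2) ≤ C)
    (hC1 : ∫ x in (-L)..L, (a1 x ^ 2 + b1 x ^ 2) ≤ C)
    (hA : ∫ x in (-L)..L, V x ≤ A) :
    (∫ x in (-L)..L, -(s x * Φ x) * χ x * (a x ^ 2 + b x ^ 2) ^ 2)
        - κ * ((S ^ 2 + 4 * S + 4 + B) * C + B * A) - ω * ((2 * S + 3) * (2 * L + C)) ≤
      ∫ x in (-L)..L, Φ x * χ x * (v1 x * b1 x + a x * w2 x - v2 x * a1 x - b x * w1 x) := by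
  have cΦ := cont_of_deriv hF.dΦ
  have cs := cont_of_deriv hF.ds
  have cχ := cont_of_deriv hχ.dχ
  have cχ1 := cont_of_deriv hχ.dχ1
  have cχ2 := hχ.cχ2
  have ca := cont_of_deriv hS.da
  have ca1 := cont_of_deriv hS.da1
  have cb := cont_of_deriv hS.db
  have cb1 := cont_of_deriv hS.db1
  have cv1 := cont_of_deriv hS.dv1
  have cv2 := cont_of_deriv hS.dv2
  have cw1 := hS.cw1
  have cw2 := hS.cw2
  have ce1 := hS.ce1
  have ce2 := hS.ce2
  have hκ0 : 0 ≤ κ := (abs_nonneg _).trans (hχ.b1 0)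
  have hLL : -L ≤ L := by linarith
  set Z' : ℝ → ℝ := fun x =>
      Φ x * χ x * (v1 x * b1 x + a x * w2 x - v2 x * a1 x - b x * w1 x)
        - (χ x * (-4 * s x * Φ x) * ((a1 x - s x * a x) ^ 2 + (b1 x - s x * b x) ^ 2)
          + -(s x * Φ x) * χ x * (a x ^ 2 + b x ^ 2) ^ 2
          + Φ x * (χ1 x * (s x ^ 2 * (a x ^ 2 + b x ^ 2) + 2 * (a1 x ^ 2 + b1 x ^ 2)
              - 2 * s x * (2 * (a x * a1 x + b x * b1 x)) + V x * (a x ^ 2 + b x ^ 2)
              + 1 / 2 * (a x ^ 2 + b x ^ 2) ^ 2)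
            + 1 / 2 * χ2 x * (2 * (a x * a1 x + b x * b1 x)))
          + 2 * Φ x * χ x * (e1 x * a1 x + e2 x * b1 x)
          + (-2 * s x * Φ x * χ x + Φ x * χ1 x) * (e1 x * a x + e2 x * b x)) with hZ'
  have cZ' : Continuous Z' := by rw [hZ']; fun_prop
  have hZ0 : ∫ x in (-L)..L, Z' x = 0 := by
    have h := intervalIntegral.integral_eq_sub_of_hasDerivAt (a := -L) (b := L)
      (fun x _ => ident hF hχ hS x) (cZ'.intervalIntegrable _ _)
    have l1 : L ≤ |L| := le_abs_self L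
    have l2 : L ≤ |-L| := by rw [abs_neg]; exact l1
    rw [hZ', h]
    simp only [hχ.z0 L l1, hχ.z0 (-L) l2, hχ.z1 L l1, hχ.z1 (-L) l2]
    ring
  set Rr : ℝ → ℝ := fun x => -(s x * Φ x) * χ x * (a x ^ 2 + b x ^ 2) ^ 2
      - κ * ((S ^ 2 + 2 * S + 1 + B) * (a x ^ 2 + b x ^ 2)
        + (3 + 2 * S) * (a1 x ^ 2 + b1 x ^ 2) + B * V x)
      - ω * (2 * (1 + (a1 x ^ 2 + b1 x ^ 2)) + (2 * S + 1) * (1 + (a x ^ 2 + b x ^ 2)))
      with hRr
  have hpt : ∀ x ∈ Icc (-L) L, Rr x ≤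
      Φ x * χ x * (v1 x * b1 x + a x * w2 x - v2 x * a1 x - b x * w1 x) - Z' x := by
    intro x hx
    have hxL : |x| ≤ L := abs_le.2 hx
    simp only [hRr, hZ']
    -- notation
    set ρ := a x ^ 2 + b x ^ 2 with hρ
    set ρ1 := a1 x ^ 2 + b1 x ^ 2 with hρ1
    set q := a x * a1 x + b x * b1 x with hq
    have p1 : |2 * q| ≤ ρ + ρ1 := by
      rw [abs_le]
      constructor <;>
        nlinarith [sq_nonneg (a x + a1 x), sq_nonneg (b x + b1 x), sq_nonneg (a x - a1 x),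
          sq_nonneg (b x - b1 x)]
    have hρ0 : 0 ≤ ρ := by positivity
    have hρ10 : 0 ≤ ρ1 := by positivity
    have hΦx := hΦ1 x
    have hsx := hsS x hxL
    have hχx0 := hχ.nn x
    have hχx1 := hχ.le1 x
    have hVx := hV0 x
    have hBx : ρ ≤ B := hB x
    -- good term
    have g1 : 0 ≤ χ x * (-4 * s x * Φ x) * ((a1 x - s x * a x) ^ 2 + (b1 x - s x * b x) ^ 2) := by
      have h1 := mul_nonneg hχx0 (hpos x hxL)
      have h2 : 0 ≤ (a1 x - s x * a x) ^ 2 + (b1 x - s x * b x) ^ 2 := by positivity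
      nlinarith [mul_nonneg h1 h2]
    -- cutoff terms
    have t1 : |χ1 x * (s x ^ 2 * ρ + 2 * ρ1 - 2 * s x * (2 * q) + V x * ρ + 1 / 2 * ρ ^ 2)
        + 1 / 2 * χ2 x * (2 * q)| ≤
        κ * ((S ^ 2 + 2 * S + 1 + B) * ρ + (3 + 2 * S) * ρ1 + B * V x) := by
      have u1 : |s x ^ 2 * ρ + 2 * ρ1 - 2 * s x * (2 * q) + V x * ρ + 1 / 2 * ρ ^ 2| ≤
          S ^ 2 * ρ + 2 * ρ1 + 2 * S * (ρ + ρ1) + B * V x + 1 / 2 * B * ρ := by
        have m1 : |s x ^ 2 * ρ| ≤ S ^ 2 * ρ := by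
          rw [abs_mul, abs_of_nonneg hρ0, abs_pow]; gcongr
        have m2 : |2 * s x * (2 * q)| ≤ 2 * S * (ρ + ρ1) := by
          rw [abs_mul, abs_mul, abs_two]; gcongr
        have m3 : |V x * ρ| ≤ B * V x := by
          rw [abs_of_nonneg (mul_nonneg hVx hρ0)]; nlinarith
        have m4 : |1 / 2 * ρ ^ 2| ≤ 1 / 2 * B * ρ := by
          rw [abs_of_nonneg (by positivity)]; nlinarith
        have m5 : |2 * ρ1| ≤ 2 * ρ1 := by rw [abs_of_nonneg (by positivity)]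
        have A1 := abs_le.1 m1
        have A2 := abs_le.1 m2
        have A3 := abs_le.1 m3
        have A4 := abs_le.1 m4
        have A5 := abs_le.1 m5
        rw [abs_le]; constructor <;> linarith [A1.1, A1.2, A2.1, A2.2, A3.1, A3.2, A4.1, A4.2,
          A5.1, A5.2]
      have hB0 : 0 ≤ B := hρ0.trans hBx
      calc |χ1 x * (s x ^ 2 * ρ + 2 * ρ1 - 2 * s x * (2 * q) + V x * ρ + 1 / 2 * ρ ^ 2)
            + 1 / 2 * χ2 x * (2 * q)|
          ≤ |χ1 x| * |s x ^ 2 * ρ + 2 * ρ1 - 2 * s x * (2 * q) + V x * ρ + 1 / 2 * ρ ^ 2|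
            + 1 / 2 * |χ2 x| * |2 * q| := by
            refine (abs_add_le _ _).trans ?_
            rw [abs_mul, abs_mul (1 / 2 * χ2 x), abs_mul (1 / 2), abs_of_nonneg (a := (1 / 2 : ℝ))
              (by norm_num)]
        _ ≤ κ * (S ^ 2 * ρ + 2 * ρ1 + 2 * S * (ρ + ρ1) + B * V x + 1 / 2 * B * ρ)
            + 1 / 2 * κ * (ρ + ρ1) := by
            gcongr
            · exact hχ.b1 x
            · exact hχ.b2 x
        _ ≤ κ * ((S ^ 2 + 2 * S + 1 + B) * ρ + (3 + 2 * S) * ρ1 + B * V x) := by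
            have : 0 ≤ κ * (1 / 2 * ρ + 1 / 2 * ρ1 + 1 / 2 * B * ρ) := by positivity
            nlinarith
    have t1' := mul_le_mul hΦx t1 (abs_nonneg _) zero_le_one
    rw [← abs_mul, one_mul] at t1'
    -- error terms
    have hse1 := he1 x hxL
    have hse2 := he2 x hxL
    have lin : ∀ y z : ℝ, |e1 x * y + e2 x * z| ≤ ω * (1 + (y ^ 2 + z ^ 2)) := by
      intro y z
      have k1 : |y| ≤ 1 / 2 + 1 / 2 * y ^ 2 := by
        rw [abs_le]; constructor <;> nlinarith [sq_nonneg (y + 1), sq_nonneg (y - 1)]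
      have k2 : |z| ≤ 1 / 2 + 1 / 2 * z ^ 2 := by
        rw [abs_le]; constructor <;> nlinarith [sq_nonneg (z + 1), sq_nonneg (z - 1)]
      calc |e1 x * y + e2 x * z| ≤ |e1 x| * |y| + |e2 x| * |z| := by
            refine (abs_add_le _ _).trans ?_
            rw [abs_mul, abs_mul]
        _ ≤ ω * (1 / 2 + 1 / 2 * y ^ 2) + ω * (1 / 2 + 1 / 2 * z ^ 2) := by gcongr
        _ ≤ _ := by nlinarith [mul_nonneg hω (sq_nonneg y), mul_nonneg hω (sq_nonneg z)]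
    have t2 : |2 * Φ x * χ x * (e1 x * a1 x + e2 x * b1 x)| ≤ ω * (2 * (1 + ρ1)) := by
      have h1 : |2 * Φ x * χ x| ≤ 2 := by
        rw [abs_mul, abs_mul, abs_two, abs_of_nonneg hχx0]
        calc 2 * |Φ x| * χ x ≤ 2 * 1 * 1 := by gcongr
          _ = 2 := by norm_num
      rw [abs_mul]
      calc |2 * Φ x * χ x| * |e1 x * a1 x + e2 x * b1 x| ≤ 2 * (ω * (1 + ρ1)) := by
            gcongr
            exact lin _ _
        _ = _ := by ring
    have t3 : |(-2 * s x * Φ x * χ x + Φ x * χ1 x) * (e1 x * a x + e2 x * b x)| ≤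
        ω * ((2 * S + 1) * (1 + ρ)) := by
      have h1 : |-2 * s x * Φ x * χ x + Φ x * χ1 x| ≤ 2 * S + 1 := by
        refine (abs_add_le _ _).trans ?_
        rw [abs_mul, abs_mul, abs_mul, abs_neg, abs_two, abs_of_nonneg hχx0, abs_mul]
        have := hχ.b1 x
        calc 2 * |s x| * |Φ x| * χ x + |Φ x| * |χ1 x| ≤ 2 * S * 1 * 1 + 1 * 1 := by
              gcongr
              exact this.trans hκ
          _ = 2 * S + 1 := by ring
      rw [abs_mul]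
      calc |-2 * s x * Φ x * χ x + Φ x * χ1 x| * |e1 x * a x + e2 x * b x|
          ≤ (2 * S + 1) * (ω * (1 + ρ)) := by
            gcongr
            exact lin _ _
        _ = _ := by ring
    have T1 := (abs_le.1 t1').1
    have T2 := (abs_le.1 t2).1
    have T3 := (abs_le.1 t3).1
    linarith
  have cR : Continuous Rr := by rw [hRr]; fun_prop
  have cD : Continuous fun x =>
      Φ x * χ x * (v1 x * b1 x + a x * w2 x - v2 x * a1 x - b x * w1 x) := by fun_prop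
  have h1 : ∫ x in (-L)..L, Rr x ≤ ∫ x in (-L)..L,
      (Φ x * χ x * (v1 x * b1 x + a x * w2 x - v2 x * a1 x - b x * w1 x) - Z' x) :=
    intervalIntegral.integral_mono_on hLL (cR.intervalIntegrable _ _)
      ((cD.sub cZ').intervalIntegrable _ _) hpt
  rw [intervalIntegral.integral_sub (cD.intervalIntegrable _ _) (cZ'.intervalIntegrable _ _), hZ0,
    sub_zero] at h1
  refine le_trans ?_ h1
  have e0 : ∫ x in (-L)..L, Rr x =
      (∫ x in (-L)..L, -(s x * Φ x) * χ x * (a x ^ 2 + b x ^ 2) ^ 2)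
      - κ * ((S ^ 2 + 2 * S + 1 + B) * (∫ x in (-L)..L, (a x ^ 2 + b x ^ 2))
        + (3 + 2 * S) * (∫ x in (-L)..L, (a1 x ^ 2 + b1 x ^ 2)) + B * ∫ x in (-L)..L, V x)
      - ω * (2 * (2 * L + ∫ x in (-L)..L, (a1 x ^ 2 + b1 x ^ 2))
        + (2 * S + 1) * (2 * L + ∫ x in (-L)..L, (a x ^ 2 + b x ^ 2))) := by
    rw [hRr]
    exact int_lin2 (F := fun x => -(s x * Φ x) * χ x * (a x ^ 2 + b x ^ 2) ^ 2)
      (f := fun x => a x ^ 2 + b x ^ 2) (g := fun x => a1 x ^ 2 + b1 x ^ 2) (h := V)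
      (by fun_prop) (by fun_prop) (by fun_prop) hV κ ω L _ _ _ _
  rw [e0]
  have hB0 : 0 ≤ B := le_trans (by positivity) (hB 0)
  have hC0 : 0 ≤ C := by
    refine le_trans ?_ hC
    exact intervalIntegral.integral_nonneg hLL fun x _ => by positivity
  have f1 : (S ^ 2 + 2 * S + 1 + B) * (∫ x in (-L)..L, (a x ^ 2 + b x ^ 2))
        + (3 + 2 * S) * (∫ x in (-L)..L, (a1 x ^ 2 + b1 x ^ 2)) + B * ∫ x in (-L)..L, V x ≤
        (S ^ 2 + 4 * S + 4 + B) * C + B * A := by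
    have g1 : (S ^ 2 + 2 * S + 1 + B) * (∫ x in (-L)..L, (a x ^ 2 + b x ^ 2)) ≤
        (S ^ 2 + 2 * S + 1 + B) * C := mul_le_mul_of_nonneg_left hC (by positivity)
    have g2 : (3 + 2 * S) * (∫ x in (-L)..L, (a1 x ^ 2 + b1 x ^ 2)) ≤ (3 + 2 * S) * C :=
      mul_le_mul_of_nonneg_left hC1 (by positivity)
    have g3 := mul_le_mul_of_nonneg_left hA hB0
    linarith
  have f2 : 2 * (2 * L + ∫ x in (-L)..L, (a1 x ^ 2 + b1 x ^ 2))
        + (2 * S + 1) * (2 * L + ∫ x in (-L)..L, (a x ^ 2 + b x ^ 2)) ≤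
        (2 * S + 3) * (2 * L + C) := by
    have g1 : (2 * S + 1) * (2 * L + ∫ x in (-L)..L, (a x ^ 2 + b x ^ 2)) ≤
        (2 * S + 1) * (2 * L + C) := mul_le_mul_of_nonneg_left (by linarith) (by positivity)
    linarith
  have F1 := mul_le_mul_of_nonneg_left f1 hκ0
  have F2 := mul_le_mul_of_nonneg_left f2 hω
  linarith

/-- the mass inequality at a fixed time -/
theorem mass_ineq (hχ : Cut L κ χ χ1 χ2) (hS : Snap V a a1 a2 b b1 b2 v1 v2 w1 w2 e1 e2)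
    (hL : 0 ≤ L) {C ω : ℝ} (hω : 0 ≤ ω)
    (he1 : ∀ x, |x| ≤ L → |e1 x| ≤ ω) (he2 : ∀ x, |x| ≤ L → |e2 x| ≤ ω)
    (hC : ∫ x in (-L)..L, (a x ^ 2 + b x ^ 2) ≤ C)
    (hC1 : ∫ x in (-L)..L, (a1 x ^ 2 + b1 x ^ 2) ≤ C) :
    |∫ x in (-L)..L, χ x * (2 * (a x * v1 x + b x * v2 x))| ≤
      κ * (2 * C) + ω * (2 * (2 * L + C)) := by
  have cχ := cont_of_deriv hχ.dχ
  have cχ1 := cont_of_deriv hχ.dχ1
  have ca := cont_of_deriv hS.da
  have ca1 := cont_of_deriv hS.da1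
  have cb := cont_of_deriv hS.db
  have cb1 := cont_of_deriv hS.db1
  have cv1 := cont_of_deriv hS.dv1
  have cv2 := cont_of_deriv hS.dv2
  have ce1 := hS.ce1
  have ce2 := hS.ce2
  have hκ0 : 0 ≤ κ := (abs_nonneg _).trans (hχ.b1 0)
  have hLL : -L ≤ L := by linarith
  set D : ℝ → ℝ := fun x => χ x * (2 * (a x * v1 x + b x * v2 x)) with hD
  set Er : ℝ → ℝ := fun x =>
    -2 * χ1 x * (b x * a1 x - a x * b1 x) + 2 * χ x * (a x * e2 x - b x * e1 x) with hEr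
  have cD : Continuous D := by rw [hD]; fun_prop
  have cE : Continuous Er := by rw [hEr]; fun_prop
  have hZ0 : ∫ x in (-L)..L, (D x - Er x) = 0 := by
    have h := intervalIntegral.integral_eq_sub_of_hasDerivAt (a := -L) (b := L)
      (fun x _ => identM hχ hS x) ((cD.sub cE).intervalIntegrable _ _)
    have l1 : L ≤ |L| := le_abs_self L
    have l2 : L ≤ |-L| := by rw [abs_neg]; exact l1
    simp only [hD, hEr]
    rw [h]
    simp only [hχ.z0 L l1, hχ.z0 (-L) l2]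
    ring
  rw [intervalIntegral.integral_sub (cD.intervalIntegrable _ _) (cE.intervalIntegrable _ _),
    sub_eq_zero] at hZ0
  change |∫ x in (-L)..L, D x| ≤ _
  rw [hZ0]
  have cI : ∀ {f : ℝ → ℝ}, Continuous f → IntervalIntegrable f volume (-L) L := fun h =>
    h.intervalIntegrable _ _
  have h1 : |∫ x in (-L)..L, Er x| ≤ ∫ x in (-L)..L,
      (κ * ((a x ^ 2 + b x ^ 2) + (a1 x ^ 2 + b1 x ^ 2)) + ω * (2 * (1 + (a x ^ 2 + b x ^ 2)))) := by
    rw [← Real.norm_eq_abs]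
    refine intervalIntegral.norm_integral_le_of_norm_le hLL (ae_of_all _ fun x hx => ?_)
      (cI (by fun_prop))
    have hxL : |x| ≤ L := abs_le.2 ⟨hx.1.le, hx.2⟩
    rw [Real.norm_eq_abs]
    have p1 : |2 * (b x * a1 x - a x * b1 x)| ≤ (a x ^ 2 + b x ^ 2) + (a1 x ^ 2 + b1 x ^ 2) := by
      rw [abs_le]
      constructor <;>
        nlinarith [sq_nonneg (a x + b1 x), sq_nonneg (b x + a1 x), sq_nonneg (a x - b1 x),
          sq_nonneg (b x - a1 x)]
    have k1 : |a x| ≤ 1 / 2 + 1 / 2 * a x ^ 2 := by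
      rw [abs_le]; constructor <;> nlinarith [sq_nonneg (a x + 1), sq_nonneg (a x - 1)]
    have k2 : |b x| ≤ 1 / 2 + 1 / 2 * b x ^ 2 := by
      rw [abs_le]; constructor <;> nlinarith [sq_nonneg (b x + 1), sq_nonneg (b x - 1)]
    have hse1 := he1 x hxL
    have hse2 := he2 x hxL
    have hχx0 := hχ.nn x
    have hχx1 := hχ.le1 x
    calc |Er x| ≤ |χ1 x| * |2 * (b x * a1 x - a x * b1 x)|
          + 2 * χ x * (|a x| * |e2 x| + |b x| * |e1 x|) := by
          simp only [hEr]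
          refine (abs_add_le _ _).trans (add_le_add (le_of_eq ?_) ?_)
          · rw [← abs_mul, ← abs_neg]; congr 1; ring
          · rw [abs_mul, abs_of_nonneg (by positivity : 0 ≤ 2 * χ x)]
            refine mul_le_mul_of_nonneg_left ?_ (by positivity)
            refine (abs_sub _ _).trans (le_of_eq ?_)
            rw [abs_mul, abs_mul]
      _ ≤ κ * ((a x ^ 2 + b x ^ 2) + (a1 x ^ 2 + b1 x ^ 2))
          + 2 * 1 * ((1 / 2 + 1 / 2 * a x ^ 2) * ω + (1 / 2 + 1 / 2 * b x ^ 2) * ω) := by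
          gcongr
          exact hχ.b1 x
      _ ≤ _ := by nlinarith [mul_nonneg hω (sq_nonneg (a x)), mul_nonneg hω (sq_nonneg (b x))]
  refine h1.trans ?_
  rw [int_lin1 (f := fun x => a x ^ 2 + b x ^ 2) (g := fun x => a1 x ^ 2 + b1 x ^ 2)
    (by fun_prop) (by fun_prop)]
  have F1 := mul_le_mul_of_nonneg_left (add_le_add hC hC1) hκ0
  have F2 : ω * (2 * (2 * L + ∫ x in (-L)..L, (a x ^ 2 + b x ^ 2))) ≤ ω * (2 * (2 * L + C)) :=
    mul_le_mul_of_nonneg_left (by linarith) hω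
  linarith

end

end

end Pool.Agent.Lib_helper40.NLV
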