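import Pool.Agent.Lib_helper40.NLV.Main

/-!
# No tight solutions: conclusion
-/

namespace Pool.Agent.Lib_helper40.NLV

open MeasureTheory Set Filter Topology intervalIntegral

noncomputable section

/-- elementary lower bound `∫ρ² ≥ (∫ρ)²/|I|` -/
lemma sq_lower {ρ : ℝ → ℝ} (hρ : Continuous ρ) {R m : ℝ} (hR : 0 < R) (hm : 0 ≤ m)
    (h : m ≤ ∫ x in (-R)..R, ρ x) : m ^ 2 / (2 * R) ≤ ∫ x in (-R)..R, ρ x ^ 2 := by
  set l := m / (2 * R) with hl
  have hl0 : 0 ≤ l := by positivity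
  have h1 : ∫ x in (-R)..R, (2 * l * ρ x - l ^ 2) ≤ ∫ x in (-R)..R, ρ x ^ 2 := by
    refine intervalIntegral.integral_mono_on (by linarith)
      ((by fun_prop : Continuous fun x => 2 * l * ρ x - l ^ 2).intervalIntegrable _ _)
      ((by fun_prop : Continuous fun x => ρ x ^ 2).intervalIntegrable _ _) fun x _ => ?_
    nlinarith [sq_nonneg (ρ x - l)]
  rw [intervalIntegral.integral_sub
    ((by fun_prop : Continuous fun x => 2 * l * ρ x).intervalIntegrable _ _) (by simp),
    intervalIntegral.integral_const_mul, intervalIntegral.integral_const, smul_eq_mul] at h1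
  have h2 : 2 * l * m ≤ 2 * l * ∫ x in (-R)..R, ρ x := by gcongr
  have h3 : 2 * l * m - (R - -R) * l ^ 2 = m ^ 2 / (2 * R) := by
    rw [hl]; field_simp; ring
  linarith

section

variable {V : ℝ → ℝ} {ψ ψ' : ℝ → ℝ → ℂ} {C : ℝ}

/-- A solution of constant positive mass is not tight for positive times. -/
theorem no_tight (hV : Continuous V) {Vm : ℝ} (hVm : ∀ x, |V x| ≤ Vm) (hV0 : ∀ x, 0 ≤ V x)
    (hVne : ∃ x, V x ≠ 0) (hVi : Integrable fun x => (1 + |x|) * V x) (h : Sol V ψ ψ' C)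
    {m : ℝ} (hm : 0 < m) {R₀ : ℝ} (hR₀ : 0 < R₀)
    (htight : ∀ t, 0 ≤ t → m ≤ ∫ x in (-R₀)..R₀, ‖ψ t x‖ ^ 2) : False := by
  have hC := h.C0
  have hVm0 : 0 ≤ Vm := (abs_nonneg _).trans (hVm 0)
  set A := ∫ y, (1 + |y|) * V y with hA
  have hA0 : 0 ≤ A := integral_nonneg fun y => by have := hV0 y; positivity
  set B := 2 * (1 + C) with hB
  have hB0 : 0 < B := by positivity
  obtain ⟨D, hD, hcut⟩ := exists_cut
  -- mass of the potential
  obtain ⟨x₀, hx₀⟩ := hVne
  have hx₀' : 0 < V x₀ := lt_of_le_of_ne (hV0 x₀) (Ne.symm hx₀)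
  set L₀ := |x₀| + 1 with hL₀
  set v₀ := ∫ y in (-L₀)..L₀, V y with hv₀
  have hv₀pos : 0 < v₀ := by
    refine intervalIntegral.integral_pos (by have := abs_nonneg x₀; linarith) hV.continuousOn
      (fun x _ => hV0 x) ⟨x₀, ⟨?_, ?_⟩, hx₀'⟩
    · have := neg_abs_le x₀; linarith
    · have := le_abs_self x₀; linarith
  set c₀ := v₀ * Real.exp (-(3 * (1 + R₀) * A)) with hc₀
  have hc₀pos : 0 < c₀ := by positivity
  set c₁ := c₀ * ((m / 2) ^ 2 / (2 * R₀)) with hc₁
  have hc₁pos : 0 < c₁ := by positivity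
  set K1 := (A ^ 2 + 4 * A + 4 + B ^ 2) * C + B ^ 2 * A with hK1
  have hK10 : 0 ≤ K1 := by positivity
  set R := max (max 1 (max R₀ L₀)) (max D (8 * D * K1 / c₁)) with hR
  have hR1 : 1 ≤ R := (le_max_left _ _).trans (le_max_left _ _)
  have hRR₀ : R₀ ≤ R := (le_max_left _ _).trans ((le_max_right _ _).trans (le_max_left _ _))
  have hRL₀ : L₀ ≤ R := (le_max_right _ _).trans ((le_max_right _ _).trans (le_max_left _ _))
  have hRD : D ≤ R := (le_max_left _ _).trans (le_max_right _ _)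
  have hRK : 8 * D * K1 / c₁ ≤ R := (le_max_right _ _).trans (le_max_right _ _)
  have hR0 : 0 < R := by linarith
  obtain ⟨χ, χ1, χ2, hχ, hχR⟩ := hcut R hR1
  set κ := D / R with hκ
  have hκ1 : κ ≤ 1 := by rw [hκ, div_le_one hR0]; exact hRD
  have hκK : κ * K1 ≤ c₁ / 8 := by
    rw [div_le_iff₀ hc₁pos] at hRK
    rw [hκ, div_mul_eq_mul_div, div_le_iff₀ hR0]
    linarith
  set L := 3 * R with hL
  have hL0 : 0 ≤ L := by positivity
  have hLR : R ≤ L := by linarith
  set K2 := (2 * A + 3) * (2 * L + C) with hK2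
  have hK20 : 0 ≤ K2 := by positivity
  set ω := min (c₁ / (8 * (K2 + 1))) (m / (2 * (2 * R₀ * (2 * B) + 1))) with hω
  have hω0 : 0 < ω := by positivity
  obtain ⟨ε, ν, hε, hν, he, hθ⟩ := choose_eps hV hVm0 hC L hω0
  obtain ⟨k, hk⟩ := exists_avg hε
  obtain ⟨Φ, s, Φ', s', F1, F2, f1, f2, f3, f4, f5, f6, f7⟩ := exists_fields hV hV0 hVi L
  have cχ : Continuous χ := cont_of_deriv hχ.dχ
  have cΦ : Continuous Φ := cont_of_deriv F1.dΦ
  have cΦ' : Continuous Φ' := cont_of_deriv F2.dΦ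
  have cs : Continuous s := cont_of_deriv F1.ds
  have cs' : Continuous s' := cont_of_deriv F2.ds
  have hχ1 : ∀ x, |χ x| ≤ 1 := fun x => by rw [abs_of_nonneg (hχ.nn x)]; exact hχ.le1 x
  have hp1 : ∀ x, |Φ x * χ x| ≤ 1 := fun x => by
    rw [abs_mul]; exact mul_le_one₀ (f1 x) (abs_nonneg _) (hχ1 x)
  have hp2 : ∀ x, |Φ' x * χ x| ≤ 1 := fun x => by
    rw [abs_mul]; exact mul_le_one₀ (f2 x) (abs_nonneg _) (hχ1 x)
  have d1 := fun t => virial_time hV hVm h hk.ker (p := fun x => Φ x * χ x)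
    (by fun_prop) hp1 L t
  have d2 := fun t => virial_time hV hVm h hk.ker (p := fun x => Φ' x * χ x)
    (by fun_prop) hp2 L t
  -- bounds for the virial inequality
  have hAL : ∫ x in (-L)..L, V x ≤ A := by
    have hi : Integrable V := by
      refine hVi.mono' hV.aestronglyMeasurable (ae_of_all _ fun y => ?_)
      rw [Real.norm_eq_abs, abs_of_nonneg (hV0 y)]
      have := hV0 y; have := abs_nonneg y; nlinarith
    calc ∫ x in (-L)..L, V x ≤ ∫ x, V x := by
          rw [intervalIntegral.integral_of_le (by linarith)]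
          exact setIntegral_le_integral hi (ae_of_all _ hV0)
      _ ≤ A := integral_mono hi hVi fun y => by
          have := hV0 y; have := abs_nonneg y; simp only; nlinarith
  have hBt : ∀ t x, (mo k (ψ t) x).re ^ 2 + (mo k (ψ t) x).im ^ 2 ≤ B ^ 2 := fun t x => by
    rw [sq_re_im]
    have := (err_bound hV hVm h hk hν t x).2.1
    have := norm_nonneg (mo k (ψ t) x)
    gcongr
  have he1 := fun t x (hx : |x| ≤ L) => (Complex.abs_re_le_norm _).trans
    (((err_bound hV hVm h hk hν t x).2.2 hx).trans he)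
  have he2 := fun t x (hx : |x| ≤ L) => (Complex.abs_im_le_norm _).trans
    (((err_bound hV hVm h hk hν t x).2.2 hx).trans he)
  have v1 := fun t => virial_ineq hV hV0 F1 hχ (snap hV h hk.ker t) hL0 hκ1 hA0 hω0.le f1 f3 f5
    (hBt t) (he1 t) (he2 t) (int_le hk (h.h1 t).mem (h.bd t) hL0)
    (int_le hk (h.h1 t).mem' (h.bd' t) hL0) hAL
  have v2 := fun t => virial_ineq hV hV0 F2 hχ (snap hV h hk.ker t) hL0 hκ1 hA0 hω0.le f2 f4 f6
    (hBt t) (he1 t) (he2 t) (int_le hk (h.h1 t).mem (h.bd t) hL0)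
    (int_le hk (h.h1 t).mem' (h.bd' t) hL0) hAL
  -- lower bound of the quartic terms
  have hq : ∀ t, 0 ≤ t → c₁ ≤
      (∫ x in (-L)..L, -(s x * Φ x) * χ x *
        ((mo k (ψ t) x).re ^ 2 + (mo k (ψ t) x).im ^ 2) ^ 2) +
      ∫ x in (-L)..L, -(s' x * Φ' x) * χ x *
        ((mo k (ψ t) x).re ^ 2 + (mo k (ψ t) x).im ^ 2) ^ 2 := by
    intro t ht
    simp only [sq_re_im]
    have cU : Continuous (mo k (ψ t)) := mo_cont hk.ker (h.h1 t).cont.locallyIntegrable
    have cψ := (h.h1 t).cont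
    rw [← intervalIntegral.integral_add ((by fun_prop : Continuous fun x =>
      -(s x * Φ x) * χ x * (‖mo k (ψ t) x‖ ^ 2) ^ 2).intervalIntegrable _ _)
      ((by fun_prop : Continuous fun x =>
      -(s' x * Φ' x) * χ x * (‖mo k (ψ t) x‖ ^ 2) ^ 2).intervalIntegrable _ _)]
    have l1 : m / 2 ≤ ∫ x in (-R₀)..R₀, ‖mo k (ψ t) x‖ ^ 2 := by
      have a0 : ∫ x in (-R₀)..R₀, (‖ψ t x‖ ^ 2 - 2 * B * ω) ≤
          ∫ x in (-R₀)..R₀, ‖mo k (ψ t) x‖ ^ 2 := by
        refine intervalIntegral.integral_mono_on (by linarith)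
          ((by fun_prop : Continuous fun x => ‖ψ t x‖ ^ 2 - 2 * B * ω).intervalIntegrable _ _)
          ((by fun_prop : Continuous fun x => ‖mo k (ψ t) x‖ ^ 2).intervalIntegrable _ _)
          fun x _ => ?_
        obtain ⟨a1, a2, -⟩ := err_bound hV hVm h hk hν t x
        have a3 := h.sup t x
        have a4 : |‖mo k (ψ t) x‖ - ‖ψ t x‖| ≤ ω :=
          (abs_norm_sub_norm_le _ _).trans (a1.trans hθ)
        have a5 : ‖mo k (ψ t) x‖ ^ 2 - ‖ψ t x‖ ^ 2 =
          (‖mo k (ψ t) x‖ + ‖ψ t x‖) * (‖mo k (ψ t) x‖ - ‖ψ t x‖) := by ring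
        have a6 : |‖mo k (ψ t) x‖ ^ 2 - ‖ψ t x‖ ^ 2| ≤ (B + B) * ω := by
          rw [a5, abs_mul, abs_of_nonneg (by positivity : 0 ≤ ‖mo k (ψ t) x‖ + ‖ψ t x‖)]
          gcongr
        have := (abs_le.1 a6).1
        linarith
      rw [intervalIntegral.integral_sub ((by fun_prop : Continuous fun x =>
        ‖ψ t x‖ ^ 2).intervalIntegrable _ _) (by simp), intervalIntegral.integral_const,
        smul_eq_mul] at a0
      have a7 := htight t ht
      have a8 : (R₀ - -R₀) * (2 * B * ω) ≤ m / 2 := by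
        have hqq : 0 ≤ 2 * R₀ * (2 * B) := by positivity
        have : ω ≤ m / (2 * (2 * R₀ * (2 * B) + 1)) := min_le_right _ _
        rw [le_div_iff₀ (by positivity)] at this
        nlinarith
      linarith
    have l2 := sq_lower (ρ := fun x => ‖mo k (ψ t) x‖ ^ 2) (by fun_prop) hR₀ (by positivity) l1
    calc c₁ = c₀ * ((m / 2) ^ 2 / (2 * R₀)) := rfl
      _ ≤ c₀ * ∫ x in (-R₀)..R₀, (‖mo k (ψ t) x‖ ^ 2) ^ 2 := by gcongr
      _ = ∫ x in (-R₀)..R₀, c₀ * (‖mo k (ψ t) x‖ ^ 2) ^ 2 := by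
          rw [intervalIntegral.integral_const_mul]
      _ ≤ ∫ x in (-R₀)..R₀, (-(s x * Φ x) * χ x * (‖mo k (ψ t) x‖ ^ 2) ^ 2 +
            -(s' x * Φ' x) * χ x * (‖mo k (ψ t) x‖ ^ 2) ^ 2) := by
          refine intervalIntegral.integral_mono_on (by linarith)
            ((by fun_prop : Continuous fun x =>
              c₀ * (‖mo k (ψ t) x‖ ^ 2) ^ 2).intervalIntegrable _ _)
            ((by fun_prop : Continuous fun x => (-(s x * Φ x) * χ x * (‖mo k (ψ t) x‖ ^ 2) ^ 2 +
              -(s' x * Φ' x) * χ x * (‖mo k (ψ t) x‖ ^ 2) ^ 2)).intervalIntegrable _ _)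
            fun x hx => ?_
          have hxR : |x| ≤ R₀ := abs_le.2 hx
          have g1 := f7 x (hxR.trans (hRR₀.trans hLR))
          have g2 : v₀ ≤ ∫ y in (-L)..L, V y :=
            intervalIntegral.integral_mono_interval (by linarith) (by
              have := abs_nonneg x₀; linarith) (by linarith) (ae_of_all _ hV0)
              (hV.intervalIntegrable _ _)
          have g3 : Real.exp (-(3 * (1 + R₀) * A)) ≤ Real.exp (-(3 * (1 + |x|) * A)) := by
            refine Real.exp_le_exp.2 (neg_le_neg ?_)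
            gcongr
          have g4 : c₀ ≤ -(s x * Φ x) + -(s' x * Φ' x) := by
            refine le_trans ?_ g1
            exact mul_le_mul g2 g3 (Real.exp_pos _).le (hv₀pos.le.trans g2)
          rw [hχR x (hxR.trans hRR₀)]
          have g5 : 0 ≤ (‖mo k (ψ t) x‖ ^ 2) ^ 2 := by positivity
          nlinarith
      _ ≤ _ := by
          refine intervalIntegral.integral_mono_interval (by linarith) (by linarith) (by linarith)
            ?_ ((by fun_prop : Continuous fun x => (-(s x * Φ x) * χ x *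
              (‖mo k (ψ t) x‖ ^ 2) ^ 2 + -(s' x * Φ' x) * χ x *
              (‖mo k (ψ t) x‖ ^ 2) ^ 2)).intervalIntegrable _ _)
          rw [Filter.EventuallyLE, ae_restrict_iff' measurableSet_Ioc]
          refine ae_of_all _ fun x hx => ?_
          have hxL : |x| ≤ L := abs_le.2 ⟨hx.1.le, hx.2⟩
          have g1 := f5 x hxL
          have g2 := f6 x hxL
          have g3 := hχ.nn x
          simp only [Pi.zero_apply]
          positivity
  -- the functional
  set M : ℝ → ℝ := fun t =>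
    (∫ x in (-L)..L, Φ x * χ x * ((mo k (ψ t) x).re * (mo k (ψ' t) x).im
        - (mo k (ψ t) x).im * (mo k (ψ' t) x).re)) +
    (∫ x in (-L)..L, Φ' x * χ x * ((mo k (ψ t) x).re * (mo k (ψ' t) x).im
        - (mo k (ψ t) x).im * (mo k (ψ' t) x).re)) with hM
  have hMd : ∀ t, 0 ≤ t → ∃ d, HasDerivAt M d t ∧ c₁ / 2 ≤ d := by
    intro t ht
    refine ⟨_, (d1 t).add (d2 t), ?_⟩
    have w1 := v1 t
    have w2 := v2 t
    have w3 := hq t ht
    have w4 : ω * K2 ≤ c₁ / 8 := by
      have : ω ≤ c₁ / (8 * (K2 + 1)) := min_le_left _ _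
      rw [le_div_iff₀ (by positivity)] at this
      nlinarith
    linarith
  obtain ⟨K0, hK0, hK0'⟩ := kbound hVm h hk.ker
  have hMb : ∀ t, |M t| ≤ 2 * (2 * (K0 * K0) * (2 * L)) := by
    intro t
    have hone : ∀ p : ℝ → ℝ, (∀ x, |p x| ≤ 1) →
        |∫ x in (-L)..L, p x * ((mo k (ψ t) x).re * (mo k (ψ' t) x).im
        - (mo k (ψ t) x).im * (mo k (ψ' t) x).re)| ≤ 2 * (K0 * K0) * (2 * L) := by
      intro p hp
      rw [← Real.norm_eq_abs]
      have := intervalIntegral.norm_integral_le_of_norm_le_const (a := -L) (b := L)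
        (f := fun x => p x * ((mo k (ψ t) x).re * (mo k (ψ' t) x).im
        - (mo k (ψ t) x).im * (mo k (ψ' t) x).re)) (C := 2 * (K0 * K0)) (fun x _ => by
          obtain ⟨b0, b1, -⟩ := hK0' t x
          have r1 : |(mo k (ψ t) x).re * (mo k (ψ' t) x).im| ≤ K0 * K0 := by
            rw [abs_mul]
            exact mul_le_mul ((Complex.abs_re_le_norm _).trans b0)
              ((Complex.abs_im_le_norm _).trans b1) (abs_nonneg _) hK0
          have r2 : |(mo k (ψ t) x).im * (mo k (ψ' t) x).re| ≤ K0 * K0 := by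
            rw [abs_mul]
            exact mul_le_mul ((Complex.abs_im_le_norm _).trans b0)
              ((Complex.abs_re_le_norm _).trans b1) (abs_nonneg _) hK0
          rw [Real.norm_eq_abs, abs_mul]
          have r3 : |(mo k (ψ t) x).re * (mo k (ψ' t) x).im
              - (mo k (ψ t) x).im * (mo k (ψ' t) x).re| ≤ 2 * (K0 * K0) := by
            have := abs_le.1 r1
            have := abs_le.1 r2
            rw [abs_le]; constructor <;> linarith
          calc |p x| * _ ≤ 1 * (2 * (K0 * K0)) :=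
                mul_le_mul (hp x) r3 (abs_nonneg _) zero_le_one
            _ = _ := one_mul _)
      refine this.trans (le_of_eq ?_)
      rw [abs_of_nonneg (by linarith)]
      ring
    refine (abs_add_le _ _).trans ?_
    have := hone _ hp1
    have := hone _ hp2
    linarith
  -- monotonicity
  have hmono : MonotoneOn (fun t => M t - c₁ / 2 * t) (Ici 0) := by
    refine monotoneOn_of_deriv_nonneg (convex_Ici 0) (fun t ht => ?_) (fun t ht => ?_)
      (fun t ht => ?_)
    · obtain ⟨d, hd, -⟩ := hMd t ht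
      exact (hd.continuousAt.sub (by fun_prop)).continuousWithinAt
    · rw [interior_Ici] at ht
      obtain ⟨d, hd, -⟩ := hMd t (le_of_lt ht)
      exact (hd.differentiableAt.sub (by fun_prop)).differentiableWithinAt
    · rw [interior_Ici] at ht
      obtain ⟨d, hd, hd2⟩ := hMd t (le_of_lt ht)
      have : HasDerivAt (fun t => M t - c₁ / 2 * t) (d - c₁ / 2 * 1) t :=
        hd.sub ((hasDerivAt_id' t).const_mul _)
      rw [this.deriv]
      linarith
  set Q := 2 * (2 * (K0 * K0) * (2 * L)) with hQ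
  have hQ0 : 0 ≤ Q := by positivity
  set T := (4 * Q + 4) / c₁ + 1 with hT
  have hT0 : 0 ≤ T := by positivity
  have h1 := hmono (show (0 : ℝ) ∈ Ici 0 from le_refl (0 : ℝ)) (show T ∈ Ici 0 from hT0) hT0
  simp only [mul_zero, sub_zero] at h1
  have h2 := (abs_le.1 (hMb T)).2
  have h3 := (abs_le.1 (hMb 0)).1
  have h4 : c₁ / 2 * T = 2 * Q + 2 + c₁ / 2 := by
    rw [hT]; field_simp; ring
  linarith

end

end

end Pool.Agent.Lib_helper40.NLV
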