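import Pool.Agent.Lib_helper40.NLV.Time

/-!
# No tight solutions
-/

namespace Pool.Agent.Lib_helper40.NLV

open MeasureTheory Set Filter Topology intervalIntegral

noncomputable section

/-- cutoff functions -/
lemma exists_cut : ∃ D : ℝ, 0 < D ∧ ∀ R : ℝ, 1 ≤ R → ∃ χ χ1 χ2 : ℝ → ℝ,
    Cut (3 * R) (D / R) χ χ1 χ2 ∧ ∀ x, |x| ≤ R → χ x = 1 := by
  let φ : ContDiffBump (0 : ℝ) := ⟨1, 2, by norm_num, by norm_num⟩
  have hk : Ker φ := ⟨φ.contDiff, φ.hasCompactSupport⟩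
  obtain ⟨D1, hD1⟩ := hk.deriv.cont.bounded_above_of_compact_support hk.deriv.2
  obtain ⟨D2, hD2⟩ := hk.deriv.deriv.cont.bounded_above_of_compact_support hk.deriv.deriv.2
  have hts : tsupport φ = Metric.closedBall 0 2 := φ.tsupport_eq
  have z0 : ∀ y : ℝ, 3 ≤ |y| → φ y = 0 := by
    intro y hy
    refine image_eq_zero_of_notMem_tsupport ?_
    rw [hts, Metric.mem_closedBall, dist_zero_right, Real.norm_eq_abs]
    linarith
  have z1 : ∀ y : ℝ, 3 ≤ |y| → deriv φ y = 0 := by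
    intro y hy
    by_contra hc
    have := support_deriv_subset (show y ∈ Function.support (deriv φ) from hc)
    rw [hts, Metric.mem_closedBall, dist_zero_right, Real.norm_eq_abs] at this
    linarith
  refine ⟨|D1| + |D2| + 1, by positivity, fun R hR => ?_⟩
  have hR0 : 0 < R := by linarith
  have hdiv : ∀ x : ℝ, 3 * R ≤ |x| → 3 ≤ |x / R| := fun x hx => by
    rw [abs_div, abs_of_pos hR0, le_div_iff₀ hR0]; exact hx
  refine ⟨fun x => φ (x / R), fun x => deriv φ (x / R) / R, fun x => deriv (deriv φ) (x / R) / R / R,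
    ⟨fun x => ?_, fun x => ?_, ?_, fun x => φ.nonneg, fun x => φ.le_one, fun x => ?_, fun x => ?_,
      fun x hx => z0 _ (hdiv x hx), fun x hx => ?_⟩, fun x hx => ?_⟩
  · have := (hk.hasDerivAt (x / R)).comp x ((hasDerivAt_id' x).div_const R)
    refine this.congr_deriv ?_
    ring
  · have := ((hk.deriv.hasDerivAt (x / R)).comp x ((hasDerivAt_id' x).div_const R)).div_const R
    refine this.congr_deriv ?_
    ring
  · have := hk.deriv.deriv.cont
    fun_prop
  · rw [abs_div, abs_of_pos hR0]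
    have h1 : |deriv φ (x / R)| ≤ |D1| := (hD1 _).trans (le_abs_self _)
    have := abs_nonneg D2
    gcongr
    linarith
  · rw [abs_div, abs_div, abs_of_pos hR0]
    have h1 : |deriv (deriv φ) (x / R)| ≤ |D2| := (hD2 _).trans (le_abs_self _)
    have := abs_nonneg D1
    have h2 : |deriv (deriv φ) (x / R)| / R ≤ |deriv (deriv φ) (x / R)| :=
      div_le_self (abs_nonneg _) hR
    gcongr
    linarith
  · rw [z1 _ (hdiv x hx), zero_div]
  · refine φ.one_of_mem_closedBall ?_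
    rw [Metric.mem_closedBall, dist_zero_right, Real.norm_eq_abs, abs_div, abs_of_pos hR0,
      div_le_iff₀ hR0]
    have : φ.rIn = 1 := rfl
    rw [this, one_mul]
    exact hx

/-- choice of the regularisation parameter -/
lemma choose_eps {V : ℝ → ℝ} (hV : Continuous V) {Vm C : ℝ} (hVm : 0 ≤ Vm) (hC : 0 ≤ C) (L : ℝ)
    {ω : ℝ} (hω : 0 < ω) : ∃ ε ν : ℝ, 0 < ε ∧
      (∀ x y, |x| ≤ L → |y - x| < ε → |V y - V x| ≤ ν) ∧
      ν * (2 * (1 + C)) + 2 * (Vm + 3 * (2 * (1 + C)) ^ 2) * ((1 + C) / 2 * √ε) ≤ ω ∧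
      (1 + C) / 2 * √ε ≤ ω := by
  have hu := (isCompact_Icc (a := -L - 1) (b := L + 1)).uniformContinuousOn_of_continuous
    hV.continuousOn
  rw [Metric.uniformContinuousOn_iff] at hu
  set ν := ω / (4 * (1 + C)) with hν
  have hν0 : 0 < ν := by positivity
  obtain ⟨δ, hδ, hδ'⟩ := hu ν hν0
  set D := 2 * ((Vm + 3 * (2 * (1 + C)) ^ 2) * (1 + C)) + (1 + C) with hD
  have hD0 : 0 < D := by positivity
  set ε := min (min δ 1) ((ω / D) ^ 2) with hε
  have hε0 : 0 < ε := by positivity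
  have hs : √ε ≤ ω / D := by
    rw [← Real.sqrt_sq (by positivity : 0 ≤ ω / D)]
    exact Real.sqrt_le_sqrt (min_le_right _ _)
  have hs0 : 0 ≤ √ε := Real.sqrt_nonneg _
  have hsD : D * √ε ≤ ω := by
    rw [le_div_iff₀ hD0] at hs; linarith
  refine ⟨ε, ν, hε0, fun x y hx hy => ?_, ?_, ?_⟩
  · have h1 : |y - x| < 1 := hy.trans_le ((min_le_left _ _).trans (min_le_right _ _))
    have h2 : |y - x| < δ := hy.trans_le ((min_le_left _ _).trans (min_le_left _ _))
    have hx' := abs_le.1 hx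
    have hy' := abs_lt.1 h1
    have := hδ' y ⟨by linarith [hx'.1, hy'.1], by linarith [hx'.2, hy'.2]⟩ x
      ⟨by linarith [hx'.1], by linarith [hx'.2]⟩ (by rw [Real.dist_eq]; exact h2)
    rw [Real.dist_eq] at this
    exact this.le
  · have e1 : ν * (2 * (1 + C)) = ω / 2 := by
      rw [hν]; field_simp; norm_num
    rw [e1]
    have e2 : D * √ε = 2 * (2 * (Vm + 3 * (2 * (1 + C)) ^ 2) * ((1 + C) / 2 * √ε))
        + (1 + C) * √ε := by rw [hD]; ring
    have : 0 ≤ (1 + C) * √ε := by positivity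
    linarith
  · have h3 : (1 + C) / 2 ≤ D := by
      rw [hD]
      have : 0 ≤ 2 * ((Vm + 3 * (2 * (1 + C)) ^ 2) * (1 + C)) := by positivity
      linarith
    calc (1 + C) / 2 * √ε ≤ D * √ε := by gcongr
      _ ≤ ω := hsD

section

variable {V : ℝ → ℝ} {ψ ψ' : ℝ → ℝ → ℂ} {C : ℝ}

lemma sq_re_im (z : ℂ) : z.re ^ 2 + z.im ^ 2 = ‖z‖ ^ 2 := by
  rw [← Complex.normSq_eq_norm_sq, Complex.normSq_apply]; ring

lemma int_le {k : ℝ → ℝ} {ε : ℝ} (hk : Avg k ε) {f : ℝ → ℂ} (hf : MemLp f 2 volume)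
    {C : ℝ} (hC : ∫ x, ‖f x‖ ^ 2 ≤ C) {L : ℝ} (hL : 0 ≤ L) :
    ∫ x in (-L)..L, ((mo k f x).re ^ 2 + (mo k f x).im ^ 2) ≤ C := by
  simp only [sq_re_im]
  obtain ⟨h1, h2⟩ := mo_int_sq hk hf
  rw [intervalIntegral.integral_of_le (by linarith)]
  exact (setIntegral_le_integral h1 (ae_of_all _ fun z => by positivity)).trans (h2.trans hC)

/-- conservation of mass -/
theorem mass_cons (hV : Continuous V) {Vm : ℝ} (hVm : ∀ x, |V x| ≤ Vm) (h : Sol V ψ ψ' C)
    (t₁ t₂ : ℝ) : ∫ x, ‖ψ t₁ x‖ ^ 2 ≤ ∫ x, ‖ψ t₂ x‖ ^ 2 := by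
  have hC := h.C0
  have hVm0 : 0 ≤ Vm := (abs_nonneg _).trans (hVm 0)
  refine le_of_forall_pos_le_add fun η hη => ?_
  obtain ⟨D, hD, hcut⟩ := exists_cut
  have i1 : Integrable (fun x => ‖ψ t₁ x‖ ^ 2) := (h.h1 t₁).mem.integrable_norm_pow (by norm_num)
  have i2 : Integrable (fun x => ‖ψ t₂ x‖ ^ 2) := (h.h1 t₂).mem.integrable_norm_pow (by norm_num)
  have hlim := intervalIntegral_tendsto_integral i1 (tendsto_neg_atTop_atBot) tendsto_id
  have hev : ∀ᶠ R : ℝ in atTop, (∫ x, ‖ψ t₁ x‖ ^ 2) - η / 4 < ∫ x in (-R)..R, ‖ψ t₁ x‖ ^ 2 :=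
    hlim.eventually (lt_mem_nhds (by linarith))
  set T := |t₁ - t₂| with hT
  have hT0 : 0 ≤ T := abs_nonneg _
  obtain ⟨R, hR1, hR2, hR3⟩ : ∃ R : ℝ, 1 ≤ R ∧ D / R * (2 * C) * T ≤ η / 4 ∧
      (∫ x, ‖ψ t₁ x‖ ^ 2) - η / 4 < ∫ x in (-R)..R, ‖ψ t₁ x‖ ^ 2 := by
    have h1 : Tendsto (fun R : ℝ => D / R * (2 * C) * T) atTop (𝓝 0) := by
      have : Tendsto (fun R : ℝ => D / R) atTop (𝓝 0) := tendsto_const_nhds.div_atTop tendsto_id
      simpa using (this.mul_const (2 * C)).mul_const T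
    obtain ⟨R, h2, h3, h4⟩ := ((eventually_ge_atTop (1 : ℝ)).and
      ((h1.eventually (ge_mem_nhds (by positivity : (0 : ℝ) < η / 4))).and hev)).exists
    exact ⟨R, h2, h3, h4⟩
  obtain ⟨χ, χ1, χ2, hχ, hχR⟩ := hcut R hR1
  set L := 3 * R with hL
  have hL0 : 0 ≤ L := by positivity
  have cχ : Continuous χ := cont_of_deriv hχ.dχ
  set B := 2 * (1 + C) with hB
  have hB0 : 0 < B := by positivity
  set ω := min (η / (4 * (2 * (2 * L + C) * T + 1))) (η / (8 * (2 * L * (2 * B) + 1))) with hω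
  have hω0 : 0 < ω := by
    have : 0 ≤ 2 * (2 * L + C) * T := by positivity
    positivity
  obtain ⟨ε, ν, hε, hν, he, hθ⟩ := choose_eps hV hVm0 hC L hω0
  obtain ⟨k, hk⟩ := exists_avg hε
  set N : ℝ → ℝ := fun s =>
    ∫ x in (-L)..L, χ x * ((mo k (ψ s) x).re ^ 2 + (mo k (ψ s) x).im ^ 2) with hN
  have hχ1 : ∀ x, |χ x| ≤ 1 := fun x => by rw [abs_of_nonneg (hχ.nn x)]; exact hχ.le1 x
  have hder := fun t => mass_time hV hVm h hk.ker cχ hχ1 L t
  have hbound : |N t₁ - N t₂| ≤ (D / R * (2 * C) + ω * (2 * (2 * L + C))) * T := by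
    have hd : ∀ t, |∫ x in (-L)..L, χ x * (2 * ((mo k (ψ t) x).re *
          (Complex.I * mo (deriv k) (ψ' t) x - Complex.I * mo k (nl V (ψ t)) x).re
        + (mo k (ψ t) x).im *
          (Complex.I * mo (deriv k) (ψ' t) x - Complex.I * mo k (nl V (ψ t)) x).im))| ≤
        D / R * (2 * C) + ω * (2 * (2 * L + C)) := by
      intro t
      refine mass_ineq hχ (snap hV h hk.ker t) hL0 hω0.le (fun x hx => ?_) (fun x hx => ?_)
        (int_le hk (h.h1 t).mem (h.bd t) hL0) (int_le hk (h.h1 t).mem' (h.bd' t) hL0)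
      · exact (Complex.abs_re_le_norm _).trans (((err_bound hV hVm h hk hν t x).2.2 hx).trans he)
      · exact (Complex.abs_im_le_norm _).trans (((err_bound hV hVm h hk hν t x).2.2 hx).trans he)
    have := Convex.norm_image_sub_le_of_norm_hasDerivWithin_le (f := N) (s := univ)
      (fun t _ => (hder t).hasDerivWithinAt) (fun t _ => by rw [Real.norm_eq_abs]; exact hd t)
      convex_univ (mem_univ t₂) (mem_univ t₁)
    simpa only [Real.norm_eq_abs] using this
  -- comparison with the mass of the solution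
  have hcomp : ∀ t, |N t - ∫ x in (-L)..L, χ x * ‖ψ t x‖ ^ 2| ≤ 2 * L * (2 * B) * ω := by
    intro t
    have c1 : Continuous (mo k (ψ t)) := mo_cont hk.ker (h.h1 t).cont.locallyIntegrable
    have c2 := (h.h1 t).cont
    rw [hN]
    simp only [sq_re_im]
    rw [← intervalIntegral.integral_sub ((by fun_prop : Continuous fun x =>
      χ x * ‖mo k (ψ t) x‖ ^ 2).intervalIntegrable _ _) ((by fun_prop : Continuous fun x =>
      χ x * ‖ψ t x‖ ^ 2).intervalIntegrable _ _), ← Real.norm_eq_abs]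
    have := intervalIntegral.norm_integral_le_of_norm_le_const (a := -L) (b := L)
      (f := fun x => χ x * ‖mo k (ψ t) x‖ ^ 2 - χ x * ‖ψ t x‖ ^ 2) (C := 2 * B * ω) (fun x _ => by
        obtain ⟨a1, a2, -⟩ := err_bound hV hVm h hk hν t x
        have a3 := h.sup t x
        rw [Real.norm_eq_abs, ← mul_sub, abs_mul, abs_of_nonneg (hχ.nn x)]
        have a4 : |‖mo k (ψ t) x‖ - ‖ψ t x‖| ≤ ω :=
          (abs_norm_sub_norm_le _ _).trans (a1.trans hθ)
        have a5 : ‖mo k (ψ t) x‖ ^ 2 - ‖ψ t x‖ ^ 2 =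
          (‖mo k (ψ t) x‖ + ‖ψ t x‖) * (‖mo k (ψ t) x‖ - ‖ψ t x‖) := by ring
        rw [a5, abs_mul, abs_of_nonneg (by positivity : 0 ≤ ‖mo k (ψ t) x‖ + ‖ψ t x‖)]
        calc χ x * ((‖mo k (ψ t) x‖ + ‖ψ t x‖) * |‖mo k (ψ t) x‖ - ‖ψ t x‖|)
            ≤ 1 * ((B + B) * ω) := by
              gcongr
              exact hχ.le1 x
          _ = 2 * B * ω := by ring)
    refine this.trans (le_of_eq ?_)
    rw [abs_of_nonneg (by linarith)]
    ring
  have hlow : (∫ x in (-R)..R, ‖ψ t₁ x‖ ^ 2) ≤ ∫ x in (-L)..L, χ x * ‖ψ t₁ x‖ ^ 2 := by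
    have c2 := (h.h1 t₁).cont
    calc (∫ x in (-R)..R, ‖ψ t₁ x‖ ^ 2) = ∫ x in (-R)..R, χ x * ‖ψ t₁ x‖ ^ 2 := by
          refine intervalIntegral.integral_congr fun x hx => ?_
          rw [uIcc_of_le (by linarith)] at hx
          simp only [hχR x (abs_le.2 hx), one_mul]
      _ ≤ _ := by
          refine intervalIntegral.integral_mono_interval (by linarith) (by linarith) (by linarith)
            (ae_of_all _ fun x => ?_) ((by fun_prop : Continuous fun x =>
              χ x * ‖ψ t₁ x‖ ^ 2).intervalIntegrable _ _)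
          have := hχ.nn x
          simp only [Pi.zero_apply]
          positivity
  have hup : (∫ x in (-L)..L, χ x * ‖ψ t₂ x‖ ^ 2) ≤ ∫ x, ‖ψ t₂ x‖ ^ 2 := by
    have c2 := (h.h1 t₂).cont
    calc (∫ x in (-L)..L, χ x * ‖ψ t₂ x‖ ^ 2) ≤ ∫ x in (-L)..L, ‖ψ t₂ x‖ ^ 2 := by
          refine intervalIntegral.integral_mono_on (by linarith) ((by fun_prop : Continuous fun x =>
              χ x * ‖ψ t₂ x‖ ^ 2).intervalIntegrable _ _) (i2.intervalIntegrable) fun x _ => ?_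
          have := hχ.le1 x
          have := hχ.nn x
          nlinarith [sq_nonneg ‖ψ t₂ x‖]
      _ ≤ _ := by
          rw [intervalIntegral.integral_of_le (by linarith)]
          exact setIntegral_le_integral i2 (ae_of_all _ fun z => by positivity)
  have b1 := (abs_le.1 (hcomp t₁)).1
  have b2 := (abs_le.1 (hcomp t₂)).2
  have b3 := (abs_le.1 hbound).2
  have w1 : ω * (2 * (2 * L + C)) * T ≤ η / 4 := by
    have hq : 0 ≤ 2 * (2 * L + C) * T := by positivity
    have : ω ≤ η / (4 * (2 * (2 * L + C) * T + 1)) := min_le_left _ _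
    rw [le_div_iff₀ (by positivity)] at this
    nlinarith
  have w2 : 2 * L * (2 * B) * ω ≤ η / 8 := by
    have hq : 0 ≤ 2 * L * (2 * B) := by positivity
    have : ω ≤ η / (8 * (2 * L * (2 * B) + 1)) := min_le_right _ _
    rw [le_div_iff₀ (by positivity)] at this
    nlinarith
  rw [add_mul] at b3
  linarith

end

end

end Pool.Agent.Lib_helper40.NLV
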