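import Pool.Agent.LT.Bil

/-!
# Mollification of `H¹` functions on the line
-/

namespace Pool.Agent.Lib_helper40.NLV

open MeasureTheory Set Filter Topology intervalIntegral
open Pool.Agent.LT

noncomputable section

/-- `f ∈ H¹(ℝ)`, continuous representative, with weak derivative `f'`. -/
structure H1 (f f' : ℝ → ℂ) : Prop where
  mem : MemLp f 2 volume
  mem' : MemLp f' 2 volume
  ftc : ∀ a b : ℝ, f b - f a = ∫ x in a..b, f' x

/-- test kernels -/
def Ker (k : ℝ → ℝ) : Prop := ContDiff ℝ (⊤ : ℕ∞) k ∧ HasCompactSupport k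

/-- convolution with a kernel -/
def mo (k : ℝ → ℝ) (f : ℝ → ℂ) : ℝ → ℂ :=
  MeasureTheory.convolution k f (ContinuousLinearMap.lsmul ℝ ℝ) volume

lemma mo_eq (k : ℝ → ℝ) (f : ℝ → ℂ) (x : ℝ) : mo k f x = ∫ y, k (x - y) • f y := by
  unfold mo
  rw [convolution_lsmul_swap]

lemma mo_eq' (k : ℝ → ℝ) (f : ℝ → ℂ) (x : ℝ) : mo k f x = ∫ y, k y • f (x - y) := by
  unfold mo
  rw [convolution_lsmul]

lemma Ker.deriv {k : ℝ → ℝ} (hk : Ker k) : Ker (deriv k) := by
  refine ⟨?_, hk.2.deriv⟩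
  have := hk.1
  exact (contDiff_infty_iff_deriv.1 this).2

lemma Ker.cont {k : ℝ → ℝ} (hk : Ker k) : Continuous k := hk.1.continuous

lemma Ker.hasDerivAt {k : ℝ → ℝ} (hk : Ker k) (x : ℝ) : HasDerivAt k (_root_.deriv k x) x :=
  (hk.1.differentiable (by simp)).differentiableAt.hasDerivAt

lemma Ker.integrable {k : ℝ → ℝ} (hk : Ker k) : Integrable k :=
  hk.cont.integrable_of_hasCompactSupport hk.2

lemma H1.loc {f f' : ℝ → ℂ} (h : H1 f f') : LocallyIntegrable f' volume :=
  h.mem'.locallyIntegrable (by norm_num)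

lemma H1.ii {f f' : ℝ → ℂ} (h : H1 f f') (a b : ℝ) : IntervalIntegrable f' volume a b :=
  (h.loc.integrableOn_isCompact isCompact_uIcc).intervalIntegrable

lemma H1.acv {f f' : ℝ → ℂ} (h : H1 f f') : ACv f f' := ⟨h.ii, h.ftc⟩

lemma H1.cont {f f' : ℝ → ℂ} (h : H1 f f') : Continuous f := h.acv.continuous

lemma mo_deriv {k : ℝ → ℝ} (hk : Ker k) {f : ℝ → ℂ} (hf : LocallyIntegrable f volume) (x : ℝ) :
    HasDerivAt (mo k f) (mo (deriv k) f x) x :=
  hk.2.hasDerivAt_convolution_left _ (hk.1.of_le (by exact_mod_cast le_top)) hf x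

lemma mo_cont {k : ℝ → ℝ} (hk : Ker k) {f : ℝ → ℂ} (hf : LocallyIntegrable f volume) :
    Continuous (mo k f) :=
  continuous_iff_continuousAt.2 fun x => (mo_deriv hk hf x).continuousAt

lemma mo_ibp {k : ℝ → ℝ} (hk : Ker k) {f f' : ℝ → ℂ} (hf : H1 f f') (x : ℝ) :
    mo (deriv k) f x = mo k f' x := by
  rw [mo_eq, mo_eq]
  -- the kernel `y ↦ k (x - y)`
  set g : ℝ → ℝ := fun y => k (x - y) with hg
  have hg' : ∀ y, HasDerivAt g (-(deriv k (x - y))) y := fun y => by
    have := (hk.hasDerivAt (x - y)).comp y ((hasDerivAt_id' y).const_sub x)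
    refine this.congr_deriv ?_
    ring
  have cg' : Continuous fun y => -(deriv k (x - y)) :=
    (hk.deriv.cont.comp (by fun_prop)).neg
  have hgac : ACv g (fun y => -(deriv k (x - y))) :=
    ⟨fun a b => cg'.intervalIntegrable a b, fun a b =>
      (intervalIntegral.integral_eq_sub_of_hasDerivAt (fun y _ => hg' y)
        (cg'.intervalIntegrable a b)).symm⟩
  have hB := bil ℝ ℂ ℂ (ContinuousLinearMap.lsmul ℝ ℝ) g (fun y => -(deriv k (x - y))) f f'
    hgac hf.acv
  -- a large interval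
  obtain ⟨R, hR⟩ := hk.2.isCompact.isBounded.subset_closedBall 0
  obtain ⟨R', hR'⟩ := hk.deriv.2.isCompact.isBounded.subset_closedBall 0
  set N : ℝ := |x| + |R| + |R'| + 1 with hN
  have k0 : ∀ y, N ≤ |y| → k (x - y) = 0 ∧ deriv k (x - y) = 0 := by
    intro y hy
    have h1 : |R| + |R'| + 1 ≤ |x - y| := by
      have : |y| ≤ |x| + |x - y| := by
        calc |y| = |x - (x - y)| := by congr 1; ring
          _ ≤ |x| + |x - y| := abs_sub _ _
      linarith
    constructor
    · by_contra hc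
      have := hR (subset_tsupport _ (show x - y ∈ Function.support k from hc))
      rw [Metric.mem_closedBall, dist_zero_right, Real.norm_eq_abs] at this
      have := le_abs_self R
      have := abs_nonneg R'
      linarith
    · by_contra hc
      have := hR' (subset_tsupport _ (show x - y ∈ Function.support (deriv k) from hc))
      rw [Metric.mem_closedBall, dist_zero_right, Real.norm_eq_abs] at this
      have := le_abs_self R'
      have := abs_nonneg R
      linarith
  have hN0 : 0 ≤ N := by positivity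
  have hNN : -N ≤ N := by linarith
  have hsub : ∀ (F : ℝ → ℂ), (∀ y, N ≤ |y| → F y = 0) → ∫ y, F y = ∫ y in (-N)..N, F y := by
    intro F hF
    rw [intervalIntegral.integral_of_le hNN]
    refine (setIntegral_eq_integral_of_forall_compl_eq_zero fun y hy => hF y ?_).symm
    rw [mem_Ioc, not_and_or, not_lt, not_le] at hy
    rcases hy with h | h
    · rw [abs_of_nonpos (by linarith)]; linarith
    · exact h.le.trans (le_abs_self y)
  rw [hsub _ (fun y hy => by rw [(k0 y hy).2, zero_smul]),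
    hsub _ (fun y hy => by rw [(k0 y hy).1, zero_smul])]
  have h2 := hB.2 (-N) N
  have l1 : N ≤ |N| := le_abs_self N
  have l2 : N ≤ |-N| := by rw [abs_neg]; exact l1
  simp only [hg, ContinuousLinearMap.lsmul_apply, (k0 N l1).1, (k0 (-N) l2).1, zero_smul,
    sub_zero] at h2
  have i1 : IntervalIntegrable (fun y => (-(deriv k (x - y))) • f y) volume (-N) N :=
    (cg'.smul hf.cont).intervalIntegrable _ _
  have i2 : IntervalIntegrable (fun y => k (x - y) • f' y) volume (-N) N :=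
    (hf.ii _ _).continuousOn_smul (hk.cont.comp (by fun_prop)).continuousOn
  rw [intervalIntegral.integral_add i1 i2] at h2
  simp only [neg_smul, intervalIntegral.integral_neg] at h2
  have := neg_add_eq_zero.1 h2.symm
  exact this

/-- sup bound -/
lemma mo_sup {k : ℝ → ℝ} (hk : Ker k) {f : ℝ → ℂ} {B : ℝ} (hf : ∀ x, ‖f x‖ ≤ B)
    (x : ℝ) : ‖mo k f x‖ ≤ (∫ y, ‖k y‖) * B := by
  rw [mo_eq']
  rw [← MeasureTheory.integral_mul_const]
  refine norm_integral_le_of_norm_le (hk.integrable.norm.mul_const B) (ae_of_all _ fun y => ?_)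
  rw [norm_smul]
  exact mul_le_mul_of_nonneg_left (hf _) (norm_nonneg _)

/-- an averaging kernel supported in `[-ε, ε]` -/
structure Avg (k : ℝ → ℝ) (ε : ℝ) : Prop where
  ker : Ker k
  nn : ∀ x, 0 ≤ k x
  int : ∫ x, k x = 1
  supp : ∀ x, ε ≤ |x| → k x = 0

lemma exists_avg {ε : ℝ} (hε : 0 < ε) : ∃ k, Avg k ε := by
  let φ : ContDiffBump (0 : ℝ) := ⟨ε / 2, ε, by linarith, by linarith⟩
  refine ⟨φ.normed volume, ⟨φ.contDiff_normed, φ.hasCompactSupport_normed⟩,
    φ.nonneg_normed, φ.integral_normed, fun x hx => ?_⟩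
  by_contra hc
  have h : x ∈ Function.support (φ.normed volume) := hc
  rw [φ.support_normed_eq, Metric.mem_ball, dist_zero_right, Real.norm_eq_abs] at h
  have : φ.rOut = ε := rfl
  linarith

/-- closeness -/
lemma mo_close {k : ℝ → ℝ} {ε : ℝ} (hk : Avg k ε) {f : ℝ → ℂ} (hf : AEStronglyMeasurable f volume)
    {x θ : ℝ} (h : ∀ y, |y - x| < ε → ‖f y - f x‖ ≤ θ) : ‖mo k f x - f x‖ ≤ θ := by
  have hε : 0 < ε := by
    by_contra hc
    have h0 : ∀ y, k y = 0 := fun y => hk.supp y ((not_lt.1 hc).trans (abs_nonneg y))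
    have := hk.int
    simp [h0] at this
  have hθ : 0 ≤ θ := by
    have := h x (by simpa using hε)
    simpa using this
  rw [← dist_eq_norm]
  refine dist_convolution_le (R := ε) hθ ?_ hk.nn hk.int hf fun y hy => ?_
  · intro y hy
    rw [Metric.mem_ball, dist_zero_right, Real.norm_eq_abs]
    by_contra hc
    exact hy (hk.supp y (not_lt.1 hc))
  · rw [dist_eq_norm]
    rw [Metric.mem_ball, Real.dist_eq] at hy
    exact h y hy

/-- Jensen -/
lemma mo_jensen {k : ℝ → ℝ} {ε : ℝ} (hk : Avg k ε) {f : ℝ → ℂ} (hf : MemLp f 2 volume) (x : ℝ) :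
    ‖mo k f x‖ ^ 2 ≤ ∫ y, k (x - y) * ‖f y‖ ^ 2 := by
  have hloc : LocallyIntegrable f volume := hf.locallyIntegrable (by norm_num)
  have hf2 : Integrable (fun y => ‖f y‖ ^ 2) := hf.integrable_norm_pow (by norm_num)
  obtain ⟨K, hK⟩ := hk.ker.cont.bounded_above_of_compact_support hk.ker.2
  have hkx : Integrable fun y => k (x - y) := hk.ker.integrable.comp_sub_left x
  have i1 : Integrable fun y => k (x - y) * ‖f y‖ ^ 2 := by
    refine hf2.bdd_mul (c := K) (hk.ker.cont.comp (by fun_prop)).aestronglyMeasurable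
      (ae_of_all _ fun y => hK _)
  have hkc : HasCompactSupport fun y => k (x - y) :=
    hk.ker.2.comp_homeomorph (Homeomorph.subLeft x)
  have i2 : Integrable fun y => k (x - y) • f y :=
    hloc.integrable_smul_left_of_hasCompactSupport (hk.ker.cont.comp (by fun_prop)) hkc
  have hint : ∫ y, k (x - y) = 1 := by
    rw [integral_sub_left_eq_self (fun y => k y) volume x]
    exact hk.int
  set m := mo k f x with hm
  -- variance
  have h0 : 0 ≤ ∫ y, k (x - y) * ‖f y - m‖ ^ 2 :=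
    integral_nonneg fun y => mul_nonneg (hk.nn _) (by positivity)
  have e1 : ∀ y, k (x - y) * ‖f y - m‖ ^ 2 =
      k (x - y) * ‖f y‖ ^ 2 - 2 * (inner ℝ m (k (x - y) • f y)) + k (x - y) * ‖m‖ ^ 2 := by
    intro y
    rw [norm_sub_sq_real, inner_smul_right, real_inner_comm]
    ring
  have i3 : Integrable fun y => inner ℝ m (k (x - y) • f y) := i2.const_inner m
  simp only [e1] at h0
  have i4 : Integrable fun y => k (x - y) * ‖f y‖ ^ 2 - 2 * (inner ℝ m (k (x - y) • f y)) :=
    i1.sub (i3.const_mul 2)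
  rw [MeasureTheory.integral_add i4 (hkx.mul_const _),
    MeasureTheory.integral_sub i1 (i3.const_mul 2),
    MeasureTheory.integral_const_mul, MeasureTheory.integral_mul_const, hint,
    integral_inner i2 m, ← mo_eq k f x, ← hm, real_inner_self_eq_norm_sq] at h0
  linarith

lemma mo_int_sq {k : ℝ → ℝ} {ε : ℝ} (hk : Avg k ε) {f : ℝ → ℂ} (hf : MemLp f 2 volume) :
    Integrable (fun x => ‖mo k f x‖ ^ 2) ∧ ∫ x, ‖mo k f x‖ ^ 2 ≤ ∫ x, ‖f x‖ ^ 2 := by
  have hloc : LocallyIntegrable f volume := hf.locallyIntegrable (by norm_num)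
  have hf2 : Integrable (fun y => ‖f y‖ ^ 2) := hf.integrable_norm_pow (by norm_num)
  have e : ∀ x, MeasureTheory.convolution k (fun y => ‖f y‖ ^ 2)
      (ContinuousLinearMap.lsmul ℝ ℝ) volume x = ∫ y, k (x - y) * ‖f y‖ ^ 2 := fun x => by
    rw [convolution_lsmul_swap]; rfl
  have h1 : Integrable (MeasureTheory.convolution k (fun y => ‖f y‖ ^ 2)
      (ContinuousLinearMap.lsmul ℝ ℝ) volume) :=
    hk.ker.integrable.integrable_convolution _ hf2
  have h2 : ∫ x, MeasureTheory.convolution k (fun y => ‖f y‖ ^ 2)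
      (ContinuousLinearMap.lsmul ℝ ℝ) volume x = ∫ y, ‖f y‖ ^ 2 := by
    rw [integral_convolution _ hk.ker.integrable hf2, hk.int]
    simp
  have h3 : Integrable (fun x => ‖mo k f x‖ ^ 2) := by
    refine h1.mono' ((mo_cont hk.ker hloc).norm.pow 2).aestronglyMeasurable
      (ae_of_all _ fun x => ?_)
    rw [norm_pow, norm_norm, e]
    exact mo_jensen hk hf x
  refine ⟨h3, ?_⟩
  rw [← h2]
  exact integral_mono h3 h1 fun x => by
    rw [e]; exact mo_jensen hk hf x

/-- Hölder continuity -/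
lemma H1.holder {f f' : ℝ → ℂ} (h : H1 f f') {C : ℝ} (hC : ∫ x, ‖f' x‖ ^ 2 ≤ C) (x y : ℝ) :
    ‖f x - f y‖ ≤ (1 + C) / 2 * √|x - y| := by
  wlog hxy : y < x with H
  · rcases eq_or_lt_of_le (not_lt.1 hxy) with h1 | h1
    · subst h1; simp
    · have := H h hC y x h1
      rwa [norm_sub_rev, abs_sub_comm] at this
  have hd : 0 < x - y := by linarith
  rw [abs_of_pos hd]
  set r := √(x - y) with hr
  have hr0 : 0 < r := Real.sqrt_pos.2 hd
  have hr2 : r ^ 2 = x - y := Real.sq_sqrt hd.le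
  have i0 : Integrable (fun z => ‖f' z‖ ^ 2) := h.mem'.integrable_norm_pow (by norm_num)
  rw [h.ftc y x]
  have h1 : ‖∫ z in y..x, f' z‖ ≤ ∫ z in y..x, (1 / 2 * r⁻¹ + 1 / 2 * r * ‖f' z‖ ^ 2) := by
    refine intervalIntegral.norm_integral_le_of_norm_le hxy.le (ae_of_all _ fun z _ => ?_) ?_
    · have h2 : 0 ≤ (r⁻¹ - ‖f' z‖) ^ 2 * r := by positivity
      have h3 : (r⁻¹ - ‖f' z‖) ^ 2 * r = r⁻¹ - 2 * ‖f' z‖ + r * ‖f' z‖ ^ 2 := by
        field_simp
        ring
      linarith
    · exact (intervalIntegrable_const).add ((i0.const_mul _).intervalIntegrable)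
  refine h1.trans ?_
  rw [intervalIntegral.integral_add (by simp) ((i0.const_mul _).intervalIntegrable),
    intervalIntegral.integral_const, intervalIntegral.integral_const_mul, smul_eq_mul, ← hr2]
  have h4 : ∫ z in y..x, ‖f' z‖ ^ 2 ≤ C := by
    rw [intervalIntegral.integral_of_le hxy.le]
    exact (setIntegral_le_integral i0 (ae_of_all _ fun z => by positivity)).trans hC
  calc r ^ 2 * (1 / 2 * r⁻¹) + 1 / 2 * r * ∫ z in y..x, ‖f' z‖ ^ 2
      ≤ r ^ 2 * (1 / 2 * r⁻¹) + 1 / 2 * r * C := by gcongr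
    _ = (1 + C) / 2 * r := by field_simp

/-- sup bound for `H¹` -/
lemma H1.sup {f f' : ℝ → ℂ} (h : H1 f f') {C : ℝ} (hC0 : ∫ x, ‖f x‖ ^ 2 ≤ C)
    (hC : ∫ x, ‖f' x‖ ^ 2 ≤ C) (x : ℝ) : ‖f x‖ ≤ 2 * (1 + C) := by
  have hCn : 0 ≤ C := le_trans (integral_nonneg fun _ => by positivity) hC
  have i0 : Integrable (fun z => ‖f z‖ ^ 2) := h.mem.integrable_norm_pow (by norm_num)
  have h1 : ∀ y ∈ Icc x (x + 1), ‖f x‖ ^ 2 ≤ 2 * ‖f y‖ ^ 2 + (1 + C) ^ 2 := by
    intro y hy
    have h2 := h.holder hC x y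
    have h3 : √|x - y| ≤ 1 := by
      rw [Real.sqrt_le_one, abs_le]
      constructor <;> linarith [hy.1, hy.2]
    have h4 : ‖f x‖ ≤ ‖f y‖ + (1 + C) / 2 := by
      calc ‖f x‖ = ‖f y + (f x - f y)‖ := by congr 1; ring
        _ ≤ ‖f y‖ + ‖f x - f y‖ := norm_add_le _ _
        _ ≤ ‖f y‖ + (1 + C) / 2 * 1 := by
            gcongr
            exact h2.trans (by gcongr)
        _ = _ := by ring
    have h5 := norm_nonneg (f x)
    have h6 := norm_nonneg (f y)
    nlinarith [sq_nonneg (‖f y‖ - (1 + C) / 2)]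
  have h2 : ∫ y in x..(x + 1), ‖f x‖ ^ 2 ≤ ∫ y in x..(x + 1), (2 * ‖f y‖ ^ 2 + (1 + C) ^ 2) := by
    have cf := h.cont
    refine intervalIntegral.integral_mono_on (by linarith) (by simp)
      ((by fun_prop : Continuous fun y => 2 * ‖f y‖ ^ 2 + (1 + C) ^ 2).intervalIntegrable _ _) h1
  rw [intervalIntegral.integral_const, intervalIntegral.integral_add
    ((i0.const_mul _).intervalIntegrable) (by simp), intervalIntegral.integral_const,
    intervalIntegral.integral_const_mul, smul_eq_mul, smul_eq_mul] at h2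
  have h4 : ∫ z in x..(x + 1), ‖f z‖ ^ 2 ≤ C := by
    rw [intervalIntegral.integral_of_le (by linarith)]
    exact (setIntegral_le_integral i0 (ae_of_all _ fun z => by positivity)).trans hC0
  have h5 : ‖f x‖ ^ 2 ≤ (2 * (1 + C)) ^ 2 := by nlinarith
  exact (abs_le_of_sq_le_sq' h5 (by positivity)).2

end

end Pool.Agent.Lib_helper40.NLV
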