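import Mathlib

/-!
# The zero energy equation `h'' = V h` on the line

For a continuous `V ≥ 0` and every `b` there is a solution with `h(b) = 1`, `h'(b) = 0`, `h ≥ 1`.
-/

namespace Pool.Agent.Lib_helper40.NLV

open MeasureTheory Set Filter Topology intervalIntegral

noncomputable section

/-- the Picard iteration for `h' = p`, `p' = V h` -/
def it (V : ℝ → ℝ) (b : ℝ) : ℕ → (ℝ → ℝ) × (ℝ → ℝ)
  | 0 => (fun _ => 1, fun _ => 0)
  | n + 1 => (fun x => ∫ z in b..x, ∫ y in b..z, V y * (it V b n).1 y,
      fun x => ∫ y in b..x, V y * (it V b n).1 y)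

lemma it_cont {V : ℝ → ℝ} (hV : Continuous V) (b : ℝ) (n : ℕ) :
    Continuous (it V b n).1 ∧ Continuous (it V b n).2 := by
  induction n with
  | zero => exact ⟨continuous_const, continuous_const⟩
  | succ n ih =>
    have h1 : Continuous (fun x => ∫ y in b..x, V y * (it V b n).1 y) :=
      intervalIntegral.continuous_primitive
        (fun a c => (hV.mul ih.1).intervalIntegrable a c) b
    exact ⟨intervalIntegral.continuous_primitive (fun a c => h1.intervalIntegrable a c) b, h1⟩

lemma it_deriv1 {V : ℝ → ℝ} (hV : Continuous V) (b : ℝ) (n : ℕ) (x : ℝ) :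
    HasDerivAt (it V b n).1 ((it V b n).2 x) x := by
  cases n with
  | zero => exact hasDerivAt_const x 1
  | succ n =>
    exact ((it_cont hV b (n + 1)).2).deriv_integral _ b x ▸
      (intervalIntegral.integral_hasDerivAt_right
        (((it_cont hV b (n + 1)).2).intervalIntegrable b x)
        (((it_cont hV b (n + 1)).2).stronglyMeasurableAtFilter _ _)
        ((it_cont hV b (n + 1)).2).continuousAt)

lemma it_deriv2 {V : ℝ → ℝ} (hV : Continuous V) (b : ℝ) (n : ℕ) (x : ℝ) :
    HasDerivAt (it V b (n + 1)).2 (V x * (it V b n).1 x) x :=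
  intervalIntegral.integral_hasDerivAt_right
    ((hV.mul (it_cont hV b n).1).intervalIntegrable b x)
    ((hV.mul (it_cont hV b n).1).stronglyMeasurableAtFilter _ _)
    (hV.mul (it_cont hV b n).1).continuousAt

lemma cmp_pow {f : ℝ → ℝ} {b c N : ℝ} {n : ℕ}
    (h : ∀ y, |y - b| ≤ N → |f y| ≤ c * |y - b| ^ n) (x : ℝ) (hx : |x - b| ≤ N) :
    |∫ y in b..x, f y| ≤ c * |x - b| ^ (n + 1) / (n + 1) := by
  rcases le_total b x with hb | hb
  · have h1 : ‖∫ y in b..x, f y‖ ≤ ∫ y in b..x, c * (y - b) ^ n := by
      refine intervalIntegral.norm_integral_le_of_norm_le hb (ae_of_all _ ?_) ?_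
      · intro y hy
        have h2 := h y (by
          rw [abs_of_nonneg (by linarith [hy.1])]
          rw [abs_of_nonneg (by linarith)] at hx
          linarith [hy.2])
        rwa [abs_of_nonneg (a := y - b) (by linarith [hy.1])] at h2
      · exact (by fun_prop : Continuous fun y => c * (y - b) ^ n).intervalIntegrable _ _
    rw [Real.norm_eq_abs] at h1
    refine h1.trans (le_of_eq ?_)
    rw [intervalIntegral.integral_const_mul,
      intervalIntegral.integral_comp_sub_right (fun y => y ^ n) b, integral_pow,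
      abs_of_nonneg (by linarith)]
    simp
    ring
  · have h1 : ‖∫ y in x..b, f y‖ ≤ ∫ y in x..b, c * (b - y) ^ n := by
      refine intervalIntegral.norm_integral_le_of_norm_le hb (ae_of_all _ ?_) ?_
      · intro y hy
        have h2 := h y (by
          rw [abs_of_nonpos (by linarith [hy.2])]
          rw [abs_of_nonpos (by linarith)] at hx
          linarith [hy.1])
        rwa [abs_of_nonpos (a := y - b) (by linarith [hy.2]), neg_sub] at h2
      · exact (by fun_prop : Continuous fun y => c * (b - y) ^ n).intervalIntegrable _ _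
    rw [intervalIntegral.integral_symm, abs_neg]
    rw [Real.norm_eq_abs] at h1
    refine h1.trans (le_of_eq ?_)
    rw [intervalIntegral.integral_const_mul,
      intervalIntegral.integral_comp_sub_left (fun y => y ^ n) b, integral_pow,
      abs_of_nonpos (by linarith)]
    simp
    ring

lemma it_bound {V : ℝ → ℝ} (b N K : ℝ) (hN : 1 ≤ N) (hK : ∀ y, |y - b| ≤ N → |V y| ≤ K)
    (n : ℕ) : ∀ x, |x - b| ≤ N → |(it V b n).1 x| ≤ (K * N) ^ n * |x - b| ^ n / n.factorial ∧
      |(it V b n).2 x| ≤ (K * N) ^ n * |x - b| ^ n / n.factorial := by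
  have hK0 : 0 ≤ K := (abs_nonneg _).trans (hK b (by simp; linarith))
  induction n with
  | zero =>
    intro x _
    simp [it]
  | succ n ih =>
    have hfac : ((n + 1).factorial : ℝ) = (n + 1 : ℝ) * (n.factorial : ℝ) := by
      rw [Nat.factorial_succ]; push_cast; ring
    have hfp : (0 : ℝ) < n.factorial := by exact_mod_cast Nat.factorial_pos n
    have h1 : ∀ x, |x - b| ≤ N → |∫ y in b..x, V y * (it V b n).1 y| ≤
        K * (K * N) ^ n * |x - b| ^ (n + 1) / (n + 1).factorial := by
      intro x hx
      refine (cmp_pow (c := K * (K * N) ^ n / n.factorial) (N := N) (n := n) ?_ x hx).trans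
        (le_of_eq ?_)
      · intro y hy
        rw [abs_mul]
        calc |V y| * |(it V b n).1 y| ≤ K * ((K * N) ^ n * |y - b| ^ n / n.factorial) :=
              mul_le_mul (hK y hy) (ih y hy).1 (abs_nonneg _) hK0
          _ = _ := by ring
      · rw [hfac]
        field_simp
    intro x hx
    have h0 : 0 ≤ K * (K * N) ^ n := by positivity
    constructor
    · change |∫ z in b..x, ∫ y in b..z, V y * (it V b n).1 y| ≤ _
      have h2 := cmp_pow (f := fun z => ∫ y in b..z, V y * (it V b n).1 y)
        (c := K * (K * N) ^ n * |x - b| ^ (n + 1) / (n + 1).factorial) (N := |x - b|) (n := 0)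
        (b := b) (fun y hy => by
          rw [pow_zero, mul_one]
          refine (h1 y (hy.trans hx)).trans ?_
          gcongr) x le_rfl
      refine h2.trans ?_
      simp only [zero_add, pow_one, Nat.cast_zero, div_one]
      calc K * (K * N) ^ n * |x - b| ^ (n + 1) / (n + 1).factorial * |x - b|
          ≤ K * (K * N) ^ n * |x - b| ^ (n + 1) / (n + 1).factorial * N := by gcongr
        _ = _ := by ring
    · change |∫ y in b..x, V y * (it V b n).1 y| ≤ _
      refine (h1 x hx).trans ?_
      have h3 : K * (K * N) ^ n ≤ (K * N) ^ (n + 1) := by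
        rw [pow_succ]
        have : 0 ≤ (K * N) ^ n := by positivity
        nlinarith [mul_nonneg hK0 this]
      gcongr

/-- Global solutions of `h'' = V h` with data `(1,0)` at `b`, with signs. -/
theorem exists_ode {V : ℝ → ℝ} (hV : Continuous V) (b : ℝ) (hV0 : ∀ x, 0 ≤ V x) :
    ∃ h p : ℝ → ℝ, (∀ x, HasDerivAt h (p x) x) ∧ (∀ x, HasDerivAt p (V x * h x) x) ∧
      h b = 1 ∧ p b = 0 ∧ (∀ x, 1 ≤ h x) ∧ (∀ x ≤ b, p x ≤ 0) := by
  -- bounds on every ball
  have key : ∀ N : ℝ, 1 ≤ N → ∃ K : ℝ, 0 ≤ K ∧ (∀ y, |y - b| ≤ N → |V y| ≤ K) := by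
    intro N hN
    obtain ⟨C, hC⟩ := (isCompact_Icc (a := b - N) (b := b + N)).exists_bound_of_continuousOn
      hV.continuousOn
    refine ⟨|C|, abs_nonneg _, fun y hy => ?_⟩
    have := abs_le.1 hy
    exact (hC y ⟨by linarith [this.1], by linarith [this.2]⟩).trans (le_abs_self C)
  have hu : ∀ K N : ℝ, Summable (fun n : ℕ => (K * N * N) ^ n / n.factorial) :=
    fun K N => Real.summable_pow_div_factorial _
  have hb1 : ∀ N K : ℝ, 1 ≤ N → 0 ≤ K → (∀ y, |y - b| ≤ N → |V y| ≤ K) → ∀ n x, |x - b| ≤ N →
      |(it V b n).1 x| ≤ (K * N * N) ^ n / n.factorial ∧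
      |(it V b n).2 x| ≤ (K * N * N) ^ n / n.factorial := by
    intro N K hN hK0 hK n x hx
    have h := it_bound b N K hN hK n x hx
    have e : (K * N) ^ n * |x - b| ^ n / n.factorial ≤ (K * N * N) ^ n / n.factorial := by
      rw [mul_pow (K * N) N n]
      gcongr
    exact ⟨h.1.trans e, h.2.trans e⟩
  have hs : ∀ x, Summable (fun n => (it V b n).1 x) ∧ Summable (fun n => (it V b n).2 x) := by
    intro x
    obtain ⟨K, hK0, hK⟩ := key (|x - b| + 1) (by linarith [abs_nonneg (x - b)])
    have hx : |x - b| ≤ |x - b| + 1 := by linarith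
    exact ⟨.of_norm_bounded (hu K _) fun n =>
        (hb1 _ K (by linarith [abs_nonneg (x - b)]) hK0 hK n x hx).1,
      .of_norm_bounded (hu K _) fun n =>
        (hb1 _ K (by linarith [abs_nonneg (x - b)]) hK0 hK n x hx).2⟩
  have hnn : ∀ n, (∀ x, 0 ≤ (it V b n).1 x) ∧ (∀ x ≤ b, (it V b n).2 x ≤ 0) ∧
      (∀ x, b ≤ x → 0 ≤ (it V b n).2 x) := by
    intro n
    induction n with
    | zero => exact ⟨fun _ => zero_le_one, fun _ _ => le_rfl, fun _ _ => le_rfl⟩
    | succ n ih =>
      have h1 : ∀ x ≤ b, (it V b (n + 1)).2 x ≤ 0 := by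
        intro x hx
        change ∫ y in b..x, V y * (it V b n).1 y ≤ 0
        rw [intervalIntegral.integral_symm, neg_nonpos]
        exact intervalIntegral.integral_nonneg hx fun y _ => mul_nonneg (hV0 y) (ih.1 y)
      have h2 : ∀ x, b ≤ x → 0 ≤ (it V b (n + 1)).2 x := by
        intro x hx
        exact intervalIntegral.integral_nonneg hx fun y _ => mul_nonneg (hV0 y) (ih.1 y)
      refine ⟨fun x => ?_, h1, h2⟩
      change 0 ≤ ∫ z in b..x, (it V b (n + 1)).2 z
      rcases le_total b x with hb | hb
      · exact intervalIntegral.integral_nonneg hb fun y hy => h2 y hy.1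
      · rw [intervalIntegral.integral_symm, ← intervalIntegral.integral_neg]
        exact intervalIntegral.integral_nonneg hb fun y hy => neg_nonneg.2 (h1 y hy.2)
  refine ⟨fun x => ∑' n, (it V b n).1 x, fun x => ∑' n, (it V b n).2 x, fun x => ?_, fun x => ?_,
    ?_, ?_, fun x => ?_, fun x hx => ?_⟩
  · obtain ⟨K, hK0, hK⟩ := key (|x - b| + 1) (by linarith [abs_nonneg (x - b)])
    refine hasDerivAt_tsum_of_isPreconnected (hu K (|x - b| + 1))
      (t := Metric.ball b (|x - b| + 1)) Metric.isOpen_ball (convex_ball _ _).isPreconnected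
      (fun n y _ => it_deriv1 hV b n y) (fun n y hy => ?_) (y₀ := x) (y := x) ?_ (hs x).1 ?_
    · rw [Metric.mem_ball, Real.dist_eq] at hy
      exact (hb1 _ K (by linarith [abs_nonneg (x - b)]) hK0 hK n y hy.le).2
    · rw [Metric.mem_ball, Real.dist_eq]; linarith
    · rw [Metric.mem_ball, Real.dist_eq]; linarith
  · obtain ⟨K, hK0, hK⟩ := key (|x - b| + 1) (by linarith [abs_nonneg (x - b)])
    set g' : ℕ → ℝ → ℝ := fun n y => match n with
      | 0 => 0
      | n + 1 => V y * (it V b n).1 y with hg'
    set u : ℕ → ℝ := fun n => match n with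
      | 0 => 0
      | n + 1 => K * ((K * (|x - b| + 1) * (|x - b| + 1)) ^ n / n.factorial) with hudef
    have hus : Summable u := by
      rw [← summable_nat_add_iff 1]
      exact (hu K (|x - b| + 1)).mul_left K
    have hmain := hasDerivAt_tsum_of_isPreconnected hus (g := fun n => (it V b n).2) (g' := g')
      (t := Metric.ball b (|x - b| + 1)) Metric.isOpen_ball (convex_ball _ _).isPreconnected
      (fun n y _ => by
        cases n with
        | zero => exact hasDerivAt_const y 0
        | succ n => exact it_deriv2 hV b n y) (fun n y hy => by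
        rw [Metric.mem_ball, Real.dist_eq] at hy
        cases n with
        | zero => simp [hg', hudef]
        | succ n =>
          simp only [hg', hudef, norm_mul, Real.norm_eq_abs]
          exact mul_le_mul (hK y hy.le)
            (hb1 _ K (by linarith [abs_nonneg (x - b)]) hK0 hK n y hy.le).1 (abs_nonneg _) hK0)
      (y₀ := x) (y := x) (by rw [Metric.mem_ball, Real.dist_eq]; linarith) (hs x).2
      (by rw [Metric.mem_ball, Real.dist_eq]; linarith)
    refine hmain.congr_deriv ?_
    have hsg : Summable (fun n => g' n x) := by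
      rw [← summable_nat_add_iff 1]
      exact (hs x).1.mul_left (V x)
    rw [hsg.tsum_eq_zero_add]
    simp only [hg', zero_add]
    exact tsum_mul_left
  · change ∑' n, (it V b n).1 b = 1
    rw [(hs b).1.tsum_eq_zero_add]
    simp [it]
  · change ∑' n, (it V b n).2 b = 0
    rw [(hs b).2.tsum_eq_zero_add]
    simp [it]
  · have := (hs x).1.le_tsum 0 (fun n _ => (hnn n).1 x)
    exact this
  · exact tsum_nonpos fun n => (hnn n).2.1 x hx

end

end Pool.Agent.Lib_helper40.NLV
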