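import Pool.Agent.Lib_helper40.NLV.Moll
import Pool.Agent.Lib_helper40.NLV.Alg

/-!
# Time derivatives of mollified solutions
-/

namespace Pool.Agent.Lib_helper40.NLV

open MeasureTheory Set Filter Topology intervalIntegral

noncomputable section

/-- the zeroth order term -/
def nl (V : ℝ → ℝ) (f : ℝ → ℂ) : ℝ → ℂ := fun x => (V x + ‖f x‖ ^ 2) • f x

/-- bounded weak solution, with explicit bound -/
structure Sol (V : ℝ → ℝ) (ψ ψ' : ℝ → ℝ → ℂ) (C : ℝ) : Prop where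
  h1 : ∀ t, H1 (ψ t) (ψ' t)
  bd : ∀ t, ∫ x, ‖ψ t x‖ ^ 2 ≤ C
  bd' : ∀ t, ∫ x, ‖ψ' t x‖ ^ 2 ≤ C
  eqn : ∀ η : ℝ → ℝ, Ker η → ∀ t,
    HasDerivAt (fun s => ∫ x, η x • ψ s x)
      (-Complex.I * ∫ x, (deriv η x • ψ' t x + η x • nl V (ψ t) x)) t

section

variable {V : ℝ → ℝ} {ψ ψ' : ℝ → ℝ → ℂ} {C : ℝ}

lemma Sol.C0 (h : Sol V ψ ψ' C) : 0 ≤ C :=
  le_trans (integral_nonneg fun _ => by positivity) (h.bd 0)

lemma Sol.sup (h : Sol V ψ ψ' C) (t x : ℝ) : ‖ψ t x‖ ≤ 2 * (1 + C) :=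
  (h.h1 t).sup (h.bd t) (h.bd' t) x

lemma nl_cont (hV : Continuous V) (h : Sol V ψ ψ' C) (t : ℝ) : Continuous (nl V (ψ t)) := by
  have := (h.h1 t).cont
  unfold nl
  fun_prop

lemma nl_bound {Vm B : ℝ} (hVm : ∀ x, |V x| ≤ Vm) {f : ℝ → ℂ} (hf : ∀ x, ‖f x‖ ≤ B) (x : ℝ) :
    ‖nl V f x‖ ≤ (Vm + B ^ 2) * B := by
  have hB : 0 ≤ B := (norm_nonneg _).trans (hf x)
  have hVm0 : 0 ≤ Vm := (abs_nonneg _).trans (hVm x)
  unfold nl
  rw [norm_smul, Real.norm_eq_abs]
  have h1 : |V x + ‖f x‖ ^ 2| ≤ Vm + B ^ 2 := by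
    refine (abs_add_le _ _).trans ?_
    rw [abs_of_nonneg (by positivity : (0 : ℝ) ≤ ‖f x‖ ^ 2)]
    have := hVm x
    have := hf x
    gcongr
  exact mul_le_mul h1 (hf x) (norm_nonneg _) (by positivity)

lemma shift_ker {k : ℝ → ℝ} (hk : Ker k) (x : ℝ) :
    Ker (fun y => k (x - y)) ∧ ∀ y, deriv (fun y => k (x - y)) y = -(deriv k (x - y)) := by
  refine ⟨⟨hk.1.comp (contDiff_const.sub contDiff_id),
    hk.2.comp_homeomorph (Homeomorph.subLeft x)⟩, fun y => ?_⟩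
  have : HasDerivAt (fun y => k (x - y)) (deriv k (x - y) * -1) y :=
    (hk.hasDerivAt (x - y)).comp y ((hasDerivAt_id' y).const_sub x)
  rw [this.deriv]
  ring

/-- time derivative of a mollified solution -/
lemma mo_time (hV : Continuous V) (h : Sol V ψ ψ' C) {k : ℝ → ℝ} (hk : Ker k) (x t : ℝ) :
    HasDerivAt (fun s => mo k (ψ s) x)
      (Complex.I * mo (deriv k) (ψ' t) x - Complex.I * mo k (nl V (ψ t)) x) t := by
  obtain ⟨hη, hη'⟩ := shift_ker hk x
  have h1 := h.eqn _ hη t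
  have i1 : Integrable fun y => deriv k (x - y) • ψ' t y :=
    (h.h1 t).loc.integrable_smul_left_of_hasCompactSupport
      (hk.deriv.cont.comp (by fun_prop)) (hk.deriv.2.comp_homeomorph (Homeomorph.subLeft x))
  have i2 : Integrable fun y => k (x - y) • nl V (ψ t) y :=
    (nl_cont hV h t).locallyIntegrable.integrable_smul_left_of_hasCompactSupport
      (hk.cont.comp (by fun_prop)) (hk.2.comp_homeomorph (Homeomorph.subLeft x))
  have e1 : ∀ y, deriv (fun y => k (x - y)) y • ψ' t y + k (x - y) • nl V (ψ t) y =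
      -(deriv k (x - y) • ψ' t y) + k (x - y) • nl V (ψ t) y := fun y => by
    rw [hη', neg_smul]
  simp only [e1] at h1
  have i3 : Integrable fun y => -(deriv k (x - y) • ψ' t y) := i1.neg
  rw [MeasureTheory.integral_add i3 i2, MeasureTheory.integral_neg, ← mo_eq, ← mo_eq] at h1
  have e2 : (fun s => mo k (ψ s) x) = fun s => ∫ y, k (x - y) • ψ s y := by
    funext s; exact mo_eq k (ψ s) x
  rw [e2]
  refine h1.congr_deriv ?_
  ring

lemma hasDerivAt_re {f : ℝ → ℂ} {f' : ℂ} {x : ℝ} (h : HasDerivAt f f' x) :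
    HasDerivAt (fun x => (f x).re) f'.re x :=
  (Complex.reCLM.hasFDerivAt.comp_hasDerivAt x h)

lemma hasDerivAt_im {f : ℝ → ℂ} {f' : ℂ} {x : ℝ} (h : HasDerivAt f f' x) :
    HasDerivAt (fun x => (f x).im) f'.im x :=
  (Complex.imCLM.hasFDerivAt.comp_hasDerivAt x h)

/-- The snapshot of the mollified solution at time `t`. -/
lemma snap (hV : Continuous V) (h : Sol V ψ ψ' C) {k : ℝ → ℝ} (hk : Ker k) (t : ℝ) :
    Snap V (fun x => (mo k (ψ t) x).re) (fun x => (mo k (ψ' t) x).re)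
      (fun x => (mo (deriv k) (ψ' t) x).re)
      (fun x => (mo k (ψ t) x).im) (fun x => (mo k (ψ' t) x).im)
      (fun x => (mo (deriv k) (ψ' t) x).im)
      (fun x => (Complex.I * mo (deriv k) (ψ' t) x - Complex.I * mo k (nl V (ψ t)) x).re)
      (fun x => (Complex.I * mo (deriv k) (ψ' t) x - Complex.I * mo k (nl V (ψ t)) x).im)
      (fun x => (Complex.I * mo (deriv (deriv k)) (ψ' t) x
        - Complex.I * mo (deriv k) (nl V (ψ t)) x).re)
      (fun x => (Complex.I * mo (deriv (deriv k)) (ψ' t) x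
        - Complex.I * mo (deriv k) (nl V (ψ t)) x).im)
      (fun x => (mo k (nl V (ψ t)) x - (V x + ‖mo k (ψ t) x‖ ^ 2) • mo k (ψ t) x).re)
      (fun x => (mo k (nl V (ψ t)) x - (V x + ‖mo k (ψ t) x‖ ^ 2) • mo k (ψ t) x).im) := by
  have l1 : LocallyIntegrable (ψ t) volume := (h.h1 t).cont.locallyIntegrable
  have l2 := (h.h1 t).loc
  have l3 : LocallyIntegrable (nl V (ψ t)) volume := (nl_cont hV h t).locallyIntegrable
  have d0 : ∀ x, HasDerivAt (mo k (ψ t)) (mo k (ψ' t) x) x := fun x => by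
    rw [← mo_ibp hk (h.h1 t)]; exact mo_deriv hk l1 x
  have d1 : ∀ x, HasDerivAt (mo k (ψ' t)) (mo (deriv k) (ψ' t) x) x := mo_deriv hk l2
  have d2 : ∀ x, HasDerivAt (fun x => Complex.I * mo (deriv k) (ψ' t) x
      - Complex.I * mo k (nl V (ψ t)) x) (Complex.I * mo (deriv (deriv k)) (ψ' t) x
        - Complex.I * mo (deriv k) (nl V (ψ t)) x) x := fun x =>
    ((mo_deriv hk.deriv l2 x).const_mul _).sub ((mo_deriv hk l3 x).const_mul _)
  have c0 : Continuous (mo k (ψ t)) := mo_cont hk l1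
  have c1 : Continuous (mo (deriv k) (ψ' t)) := mo_cont hk.deriv l2
  have c2 : Continuous (mo (deriv (deriv k)) (ψ' t)) := mo_cont hk.deriv.deriv l2
  have c3 : Continuous (mo k (nl V (ψ t))) := mo_cont hk l3
  have c4 : Continuous (mo (deriv k) (nl V (ψ t))) := mo_cont hk.deriv l3
  have hsq : ∀ z : ℂ, ‖z‖ ^ 2 = z.re ^ 2 + z.im ^ 2 := fun z => by
    rw [← Complex.normSq_eq_norm_sq, Complex.normSq_apply]; ring
  refine ⟨fun x => hasDerivAt_re (d0 x), fun x => hasDerivAt_re (d1 x),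
    fun x => hasDerivAt_im (d0 x), fun x => hasDerivAt_im (d1 x),
    fun x => hasDerivAt_re (d2 x), fun x => hasDerivAt_im (d2 x), fun x => ?_, fun x => ?_,
    by fun_prop, by fun_prop, by fun_prop, by fun_prop, by fun_prop, by fun_prop⟩
  · rw [hsq]
    simp only [Complex.sub_re, Complex.sub_im, Complex.mul_re, Complex.I_re, Complex.I_im,
      Complex.real_smul, Complex.mul_im, Complex.ofReal_re, Complex.ofReal_im]
    ring
  · rw [hsq]
    simp only [Complex.sub_re, Complex.sub_im, Complex.mul_re, Complex.I_re, Complex.I_im,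
      Complex.real_smul, Complex.mul_im, Complex.ofReal_re, Complex.ofReal_im]
    ring

/-- differentiation under the integral sign, on a bounded interval -/
lemma param {F F' : ℝ → ℝ → ℝ} {L K : ℝ} (hF : ∀ t, Continuous (F t))
    (hF' : ∀ t, Continuous (F' t)) (hb : ∀ t x, |F' t x| ≤ K)
    (hd : ∀ t x, HasDerivAt (fun s => F s x) (F' t x) t) (t : ℝ) :
    HasDerivAt (fun s => ∫ x in (-L)..L, F s x) (∫ x in (-L)..L, F' t x) t :=
  (intervalIntegral.hasDerivAt_integral_of_dominated_loc_of_deriv_le (s := univ)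
    (bound := fun _ => K) univ_mem
    (Eventually.of_forall fun s => (hF s).aestronglyMeasurable)
    ((hF t).intervalIntegrable _ _) (hF' t).aestronglyMeasurable
    (ae_of_all _ fun x _ s _ => hb s x) (by simp)
    (ae_of_all _ fun x _ s _ => hd s x)).2

lemma kbound {Vm : ℝ} (hVm : ∀ x, |V x| ≤ Vm) (h : Sol V ψ ψ' C) {k : ℝ → ℝ} (hk : Ker k) :
    ∃ K, 0 ≤ K ∧ ∀ t x, ‖mo k (ψ t) x‖ ≤ K ∧ ‖mo k (ψ' t) x‖ ≤ K ∧
      ‖mo k (nl V (ψ t)) x‖ ≤ K := by
  have hC := h.C0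
  have hVm0 : 0 ≤ Vm := (abs_nonneg _).trans (hVm 0)
  set B := 2 * (1 + C) with hB
  have hB0 : 0 ≤ B := by positivity
  have i0 : 0 ≤ ∫ y, ‖k y‖ := integral_nonneg fun _ => norm_nonneg _
  have i1 : 0 ≤ ∫ y, ‖deriv k y‖ := integral_nonneg fun _ => norm_nonneg _
  refine ⟨(∫ y, ‖k y‖) * B + (∫ y, ‖deriv k y‖) * B + (∫ y, ‖k y‖) * ((Vm + B ^ 2) * B),
    by positivity, fun t x => ⟨?_, ?_, ?_⟩⟩
  · refine (mo_sup hk (h.sup t) x).trans ?_
    have h1 : 0 ≤ (∫ y, ‖deriv k y‖) * B := by positivity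
    have h2 : 0 ≤ (∫ y, ‖k y‖) * ((Vm + B ^ 2) * B) := by positivity
    linarith
  · rw [← mo_ibp hk (h.h1 t)]
    refine (mo_sup hk.deriv (h.sup t) x).trans ?_
    have h1 : 0 ≤ (∫ y, ‖k y‖) * B := by positivity
    have h2 : 0 ≤ (∫ y, ‖k y‖) * ((Vm + B ^ 2) * B) := by positivity
    linarith
  · refine (mo_sup hk (nl_bound hVm (h.sup t)) x).trans ?_
    have h1 : 0 ≤ (∫ y, ‖deriv k y‖) * B := by positivity
    have h2 : 0 ≤ (∫ y, ‖k y‖) * B := by positivity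
    linarith

/-- derivative of the virial functional -/
theorem virial_time (hV : Continuous V) {Vm : ℝ} (hVm : ∀ x, |V x| ≤ Vm) (h : Sol V ψ ψ' C)
    {k : ℝ → ℝ} (hk : Ker k) {p : ℝ → ℝ} (hp : Continuous p) (hp1 : ∀ x, |p x| ≤ 1) (L t : ℝ) :
    HasDerivAt (fun s => ∫ x in (-L)..L, p x * ((mo k (ψ s) x).re * (mo k (ψ' s) x).im
        - (mo k (ψ s) x).im * (mo k (ψ' s) x).re))
      (∫ x in (-L)..L, p x *
        ((Complex.I * mo (deriv k) (ψ' t) x - Complex.I * mo k (nl V (ψ t)) x).re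
            * (mo k (ψ' t) x).im
          + (mo k (ψ t) x).re * (Complex.I * mo (deriv (deriv k)) (ψ' t) x
            - Complex.I * mo (deriv k) (nl V (ψ t)) x).im
          - (Complex.I * mo (deriv k) (ψ' t) x - Complex.I * mo k (nl V (ψ t)) x).im
            * (mo k (ψ' t) x).re
          - (mo k (ψ t) x).im * (Complex.I * mo (deriv (deriv k)) (ψ' t) x
            - Complex.I * mo (deriv k) (nl V (ψ t)) x).re)) t := by
  obtain ⟨K0, hK0, hK0'⟩ := kbound hVm h hk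
  obtain ⟨K1, hK1, hK1'⟩ := kbound hVm h hk.deriv
  obtain ⟨K2, hK2, hK2'⟩ := kbound hVm h hk.deriv.deriv
  have hS := fun t => snap hV h hk t
  refine param (F := fun s x => p x * ((mo k (ψ s) x).re * (mo k (ψ' s) x).im
        - (mo k (ψ s) x).im * (mo k (ψ' s) x).re))
    (F' := fun t x => p x *
        ((Complex.I * mo (deriv k) (ψ' t) x - Complex.I * mo k (nl V (ψ t)) x).re
            * (mo k (ψ' t) x).im
          + (mo k (ψ t) x).re * (Complex.I * mo (deriv (deriv k)) (ψ' t) x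
            - Complex.I * mo (deriv k) (nl V (ψ t)) x).im
          - (Complex.I * mo (deriv k) (ψ' t) x - Complex.I * mo k (nl V (ψ t)) x).im
            * (mo k (ψ' t) x).re
          - (mo k (ψ t) x).im * (Complex.I * mo (deriv (deriv k)) (ψ' t) x
            - Complex.I * mo (deriv k) (nl V (ψ t)) x).re))
    (K := 2 * ((K1 + K0) * K0) + 2 * (K0 * (K2 + K1))) (fun t => ?_) (fun t => ?_)
    (fun t x => ?_) (fun t x => ?_) t
  · have c0 := cont_of_deriv (hS t).da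
    have c1 := cont_of_deriv (hS t).da1
    have c2 := cont_of_deriv (hS t).db
    have c3 := cont_of_deriv (hS t).db1
    exact hp.mul ((c0.mul c3).sub (c2.mul c1))
  · have c0 := cont_of_deriv (hS t).da
    have c1 := cont_of_deriv (hS t).da1
    have c2 := cont_of_deriv (hS t).db
    have c3 := cont_of_deriv (hS t).db1
    have c4 := cont_of_deriv (hS t).dv1
    have c5 := cont_of_deriv (hS t).dv2
    have c6 := (hS t).cw1
    have c7 := (hS t).cw2
    exact hp.mul ((((c4.mul c3).add (c0.mul c7)).sub (c5.mul c1)).sub (c2.mul c6))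
  · have b0 := (hK0' t x).1
    have b1 := (hK0' t x).2.1
    set U := mo k (ψ t) x with hU
    set U1 := mo k (ψ' t) x with hU1
    set v := Complex.I * mo (deriv k) (ψ' t) x - Complex.I * mo k (nl V (ψ t)) x with hv
    set w := Complex.I * mo (deriv (deriv k)) (ψ' t) x
            - Complex.I * mo (deriv k) (nl V (ψ t)) x with hw
    have bv : ‖v‖ ≤ K1 + K0 := by
      refine (norm_sub_le _ _).trans ?_
      rw [norm_mul, norm_mul, Complex.norm_I, one_mul, one_mul]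
      exact add_le_add (hK1' t x).2.1 (hK0' t x).2.2
    have bw : ‖w‖ ≤ K2 + K1 := by
      refine (norm_sub_le _ _).trans ?_
      rw [norm_mul, norm_mul, Complex.norm_I, one_mul, one_mul]
      exact add_le_add (hK2' t x).2.1 (hK1' t x).2.2
    have r1 : |v.re * U1.im| ≤ (K1 + K0) * K0 := by
      rw [abs_mul]
      exact mul_le_mul ((Complex.abs_re_le_norm v).trans bv) ((Complex.abs_im_le_norm U1).trans b1)
        (abs_nonneg _) (by positivity)
    have r2 : |v.im * U1.re| ≤ (K1 + K0) * K0 := by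
      rw [abs_mul]
      exact mul_le_mul ((Complex.abs_im_le_norm v).trans bv) ((Complex.abs_re_le_norm U1).trans b1)
        (abs_nonneg _) (by positivity)
    have r3 : |U.re * w.im| ≤ K0 * (K2 + K1) := by
      rw [abs_mul]
      exact mul_le_mul ((Complex.abs_re_le_norm U).trans b0) ((Complex.abs_im_le_norm w).trans bw)
        (abs_nonneg _) (by positivity)
    have r4 : |U.im * w.re| ≤ K0 * (K2 + K1) := by
      rw [abs_mul]
      exact mul_le_mul ((Complex.abs_im_le_norm U).trans b0) ((Complex.abs_re_le_norm w).trans bw)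
        (abs_nonneg _) (by positivity)
    rw [abs_mul]
    have r5 : |v.re * U1.im + U.re * w.im - v.im * U1.re - U.im * w.re| ≤
        2 * ((K1 + K0) * K0) + 2 * (K0 * (K2 + K1)) := by
      have := abs_le.1 r1
      have := abs_le.1 r2
      have := abs_le.1 r3
      have := abs_le.1 r4
      rw [abs_le]; constructor <;> linarith
    calc |p x| * _ ≤ 1 * (2 * ((K1 + K0) * K0) + 2 * (K0 * (K2 + K1))) :=
          mul_le_mul (hp1 x) r5 (abs_nonneg _) zero_le_one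
      _ = _ := one_mul _
  · have t0 := mo_time hV h hk x t
    have t1 : HasDerivAt (fun s => mo k (ψ' s) x) (Complex.I * mo (deriv (deriv k)) (ψ' t) x
        - Complex.I * mo (deriv k) (nl V (ψ t)) x) t := by
      have := mo_time hV h hk.deriv x t
      simpa only [mo_ibp hk (h.h1 _)] using this
    have H := (((hasDerivAt_re t0).mul (hasDerivAt_im t1)).sub
      ((hasDerivAt_im t0).mul (hasDerivAt_re t1))).const_mul (p x)
    refine H.congr_deriv ?_
    ring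

/-- derivative of the local mass -/
theorem mass_time (hV : Continuous V) {Vm : ℝ} (hVm : ∀ x, |V x| ≤ Vm) (h : Sol V ψ ψ' C)
    {k : ℝ → ℝ} (hk : Ker k) {p : ℝ → ℝ} (hp : Continuous p) (hp1 : ∀ x, |p x| ≤ 1) (L t : ℝ) :
    HasDerivAt (fun s => ∫ x in (-L)..L, p x * ((mo k (ψ s) x).re ^ 2 + (mo k (ψ s) x).im ^ 2))
      (∫ x in (-L)..L, p x * (2 * ((mo k (ψ t) x).re *
          (Complex.I * mo (deriv k) (ψ' t) x - Complex.I * mo k (nl V (ψ t)) x).re
        + (mo k (ψ t) x).im *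
          (Complex.I * mo (deriv k) (ψ' t) x - Complex.I * mo k (nl V (ψ t)) x).im))) t := by
  obtain ⟨K0, hK0, hK0'⟩ := kbound hVm h hk
  obtain ⟨K1, hK1, hK1'⟩ := kbound hVm h hk.deriv
  have hS := fun t => snap hV h hk t
  refine param (F := fun s x => p x * ((mo k (ψ s) x).re ^ 2 + (mo k (ψ s) x).im ^ 2))
    (F' := fun t x => p x * (2 * ((mo k (ψ t) x).re *
          (Complex.I * mo (deriv k) (ψ' t) x - Complex.I * mo k (nl V (ψ t)) x).re
        + (mo k (ψ t) x).im *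
          (Complex.I * mo (deriv k) (ψ' t) x - Complex.I * mo k (nl V (ψ t)) x).im)))
    (K := 4 * (K0 * (K1 + K0))) (fun t => ?_) (fun t => ?_)
    (fun t x => ?_) (fun t x => ?_) t
  · have c0 := cont_of_deriv (hS t).da
    have c2 := cont_of_deriv (hS t).db
    exact hp.mul ((c0.pow 2).add (c2.pow 2))
  · have c0 := cont_of_deriv (hS t).da
    have c2 := cont_of_deriv (hS t).db
    have c4 := cont_of_deriv (hS t).dv1
    have c5 := cont_of_deriv (hS t).dv2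
    exact hp.mul (continuous_const.mul ((c0.mul c4).add (c2.mul c5)))
  · have b0 := (hK0' t x).1
    set U := mo k (ψ t) x with hU
    set v := Complex.I * mo (deriv k) (ψ' t) x - Complex.I * mo k (nl V (ψ t)) x with hv
    have bv : ‖v‖ ≤ K1 + K0 := by
      refine (norm_sub_le _ _).trans ?_
      rw [norm_mul, norm_mul, Complex.norm_I, one_mul, one_mul]
      exact add_le_add (hK1' t x).2.1 (hK0' t x).2.2
    have r1 : |U.re * v.re| ≤ K0 * (K1 + K0) := by
      rw [abs_mul]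
      exact mul_le_mul ((Complex.abs_re_le_norm U).trans b0) ((Complex.abs_re_le_norm v).trans bv)
        (abs_nonneg _) (by positivity)
    have r2 : |U.im * v.im| ≤ K0 * (K1 + K0) := by
      rw [abs_mul]
      exact mul_le_mul ((Complex.abs_im_le_norm U).trans b0) ((Complex.abs_im_le_norm v).trans bv)
        (abs_nonneg _) (by positivity)
    rw [abs_mul]
    have r5 : |2 * (U.re * v.re + U.im * v.im)| ≤ 4 * (K0 * (K1 + K0)) := by
      have := abs_le.1 r1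
      have := abs_le.1 r2
      rw [abs_le]; constructor <;> linarith
    calc |p x| * _ ≤ 1 * (4 * (K0 * (K1 + K0))) :=
          mul_le_mul (hp1 x) r5 (abs_nonneg _) zero_le_one
      _ = _ := one_mul _
  · have t0 := mo_time hV h hk x t
    have H := (((hasDerivAt_re t0).pow 2).add ((hasDerivAt_im t0).pow 2)).const_mul (p x)
    refine H.congr_deriv ?_
    push_cast
    ring

/-- Lipschitz bound of the cubic term -/
lemma nl_lip {v v' B : ℝ} {z w : ℂ} (hz : ‖z‖ ≤ B) (hw : ‖w‖ ≤ B) :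
    ‖(v + ‖z‖ ^ 2) • z - (v' + ‖w‖ ^ 2) • w‖ ≤ |v - v'| * B + (|v'| + 3 * B ^ 2) * ‖z - w‖ := by
  have hB : 0 ≤ B := (norm_nonneg _).trans hz
  have e : (v + ‖z‖ ^ 2) • z - (v' + ‖w‖ ^ 2) • w =
      (v - v') • z + v' • (z - w) + ‖z‖ ^ 2 • (z - w) + (‖z‖ ^ 2 - ‖w‖ ^ 2) • w := by
    simp only [Complex.real_smul]
    push_cast
    ring
  rw [e]
  have h1 : ‖(v - v') • z‖ ≤ |v - v'| * B := by
    rw [norm_smul, Real.norm_eq_abs]; gcongr
  have h2 : ‖v' • (z - w)‖ ≤ |v'| * ‖z - w‖ := by rw [norm_smul, Real.norm_eq_abs]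
  have h3 : ‖‖z‖ ^ 2 • (z - w)‖ ≤ B ^ 2 * ‖z - w‖ := by
    rw [norm_smul, Real.norm_eq_abs, abs_of_nonneg (by positivity)]; gcongr
  have h4 : ‖(‖z‖ ^ 2 - ‖w‖ ^ 2) • w‖ ≤ 2 * B ^ 2 * ‖z - w‖ := by
    rw [norm_smul, Real.norm_eq_abs]
    have h5 : |‖z‖ ^ 2 - ‖w‖ ^ 2| ≤ 2 * B * ‖z - w‖ := by
      have e2 : ‖z‖ ^ 2 - ‖w‖ ^ 2 = (‖z‖ + ‖w‖) * (‖z‖ - ‖w‖) := by ring
      rw [e2, abs_mul, abs_of_nonneg (by positivity : 0 ≤ ‖z‖ + ‖w‖)]
      exact mul_le_mul (by linarith) (abs_norm_sub_norm_le z w) (abs_nonneg _) (by positivity)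
    calc |‖z‖ ^ 2 - ‖w‖ ^ 2| * ‖w‖ ≤ (2 * B * ‖z - w‖) * B := by gcongr
      _ = _ := by ring
  calc _ ≤ ‖(v - v') • z + v' • (z - w) + ‖z‖ ^ 2 • (z - w)‖ + ‖(‖z‖ ^ 2 - ‖w‖ ^ 2) • w‖ :=
        norm_add_le _ _
    _ ≤ ‖(v - v') • z‖ + ‖v' • (z - w)‖ + ‖‖z‖ ^ 2 • (z - w)‖ + ‖(‖z‖ ^ 2 - ‖w‖ ^ 2) • w‖ := by
        gcongr; exact norm_add₃_le
    _ ≤ _ := by linarith

/-- the regularisation errors, uniformly in time -/
theorem err_bound (hV : Continuous V) {Vm : ℝ} (hVm : ∀ x, |V x| ≤ Vm) (h : Sol V ψ ψ' C)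
    {k : ℝ → ℝ} {ε : ℝ} (hk : Avg k ε) {L ν : ℝ}
    (hν : ∀ x y, |x| ≤ L → |y - x| < ε → |V y - V x| ≤ ν) (t x : ℝ) :
    ‖mo k (ψ t) x - ψ t x‖ ≤ (1 + C) / 2 * √ε ∧ ‖mo k (ψ t) x‖ ≤ 2 * (1 + C) ∧
      (|x| ≤ L → ‖mo k (nl V (ψ t)) x - (V x + ‖mo k (ψ t) x‖ ^ 2) • mo k (ψ t) x‖ ≤
        ν * (2 * (1 + C)) + 2 * (Vm + 3 * (2 * (1 + C)) ^ 2) * ((1 + C) / 2 * √ε)) := by
  have hC := h.C0
  have hVm0 : 0 ≤ Vm := (abs_nonneg _).trans (hVm 0)
  set B := 2 * (1 + C) with hB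
  have hB0 : 0 ≤ B := by positivity
  set θ := (1 + C) / 2 * √ε with hθ
  have hcl : ∀ y, |y - x| < ε → ‖ψ t y - ψ t x‖ ≤ θ := fun y hy => by
    refine ((h.h1 t).holder (h.bd' t) y x).trans ?_
    rw [hθ]
    gcongr
  have e1 : ‖mo k (ψ t) x - ψ t x‖ ≤ θ :=
    mo_close hk (h.h1 t).cont.aestronglyMeasurable hcl
  have e2 : ‖mo k (ψ t) x‖ ≤ B := by
    have := mo_sup hk.ker (h.sup t) x
    have e : ∫ y, ‖k y‖ = 1 := by
      rw [← hk.int]
      exact integral_congr_ae (ae_of_all _ fun y => by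
        simp only [Real.norm_eq_abs]; exact abs_of_nonneg (hk.nn y))
    rwa [e, one_mul] at this
  refine ⟨e1, e2, fun hx => ?_⟩
  have hKV : ∀ y, |V y| ≤ Vm := hVm
  have e3 : ‖mo k (nl V (ψ t)) x - nl V (ψ t) x‖ ≤ ν * B + (Vm + 3 * B ^ 2) * θ := by
    refine mo_close hk (nl_cont hV h t).aestronglyMeasurable fun y hy => ?_
    unfold nl
    refine (nl_lip (h.sup t y) (h.sup t x)).trans ?_
    have a1 := hν x y hx hy
    have a2 := hcl y hy
    have a3 := hVm x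
    gcongr
  have e4 : ‖nl V (ψ t) x - (V x + ‖mo k (ψ t) x‖ ^ 2) • mo k (ψ t) x‖ ≤
      (Vm + 3 * B ^ 2) * θ := by
    unfold nl
    refine (nl_lip (h.sup t x) e2).trans ?_
    rw [sub_self, abs_zero, zero_mul, zero_add, norm_sub_rev]
    have a3 := hVm x
    gcongr
  calc ‖mo k (nl V (ψ t)) x - (V x + ‖mo k (ψ t) x‖ ^ 2) • mo k (ψ t) x‖
      = ‖(mo k (nl V (ψ t)) x - nl V (ψ t) x) +
        (nl V (ψ t) x - (V x + ‖mo k (ψ t) x‖ ^ 2) • mo k (ψ t) x)‖ := by congr 1; ring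
    _ ≤ _ := norm_add_le _ _
    _ ≤ _ := by linarith

end

end

end Pool.Agent.Lib_helper40.NLV
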